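import Pool.Agent.Helper52.TriE
open MeasureTheory ProbabilityTheory Filter Topology Set
open scoped ENNReal NNReal BoundedContinuousFunction

set_option linter.unusedSectionVars false
namespace Pool.Agent.Helper52.Tri

variable {lam : ℝ}

theorem stable_conv (hl : 0 < lam) (hD : lam * aa < 3 * th) :
    ∃ π : Measure Load, IsProbabilityMeasure π ∧ π {x | ∀ i, 0 ≤ x i} = 1 ∧
      ∀ g : Load →ᵇ ℝ, Tendsto (fun t : ℝ => ∫ ω, g (gW drain join 0 ω t) ∂(PP lam)) atTop
        (𝓝 (∫ x, g x ∂π)) := by
  have hp := isProbabilityMeasure_expMeasure hl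
  obtain ⟨C, hC, htight⟩ := tight_bound hl hD
  obtain ⟨C', δ, hC', hδ, hcau⟩ := cauchy_bound hl hD
  have hth := th_pos
  have hmap : ∀ t : ℝ, IsProbabilityMeasure ((PP lam).map (fun ω => gW drain join 0 ω t)) := fun t =>
    Measure.isProbabilityMeasure_map (measurable_gW' 0 t).aemeasurable
  set ν : ℝ → ProbabilityMeasure Load := fun t => ⟨(PP lam).map (fun ω => gW drain join 0 ω t), hmap t⟩ with hν
  set K : ℕ → Set Load := fun m => Icc (0 : Load) (fun _ => (m : ℝ) + 8) with hK
  set u : ℕ → ℝ≥0 := fun m => Real.toNNReal (C * Real.exp (-(3 * th * m))) with hu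
  have hut : Tendsto u atTop (𝓝 0) := by
    have h1 : Tendsto (fun m : ℕ => 3 * th * (m : ℝ)) atTop atTop :=
      tendsto_natCast_atTop_atTop.const_mul_atTop (by positivity)
    have h2 : Tendsto (fun m : ℕ => C * Real.exp (-(3 * th * (m : ℝ)))) atTop (𝓝 (C * 0)) :=
      (Real.tendsto_exp_neg_atTop_nhds_zero.comp h1).const_mul C
    rw [mul_zero] at h2
    have h4 := (continuous_real_toNNReal.tendsto 0).comp h2
    simpa [Function.comp_def] using h4
  have hKc : ∀ m, IsCompact (K m) := fun m => isCompact_Icc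
  have hcomp := isCompact_setOfPred_probabilityMeasure_mass_eq_compl_isCompact_le (E := Load) hut hKc
    (Or.inl inferInstance)
  set νn : ℕ → ProbabilityMeasure Load := fun n => ν (n : ℝ) with hνn
  obtain ⟨π, hπmem, hπlim⟩ := hcomp.ultrafilter_le_nhds ((hyperfilter ℕ).map νn) (by
    rw [le_principal_iff]
    apply Filter.mem_map.2
    apply Filter.univ_mem'
    intro n m
    show (νn n) (K m)ᶜ ≤ u m
    rw [← ENNReal.coe_le_coe, ProbabilityMeasure.ennreal_coeFn_eq_coeFn_toMeasure]
    have h1 := htight m n (Nat.cast_nonneg n)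
    have h2 : ((νn n : ProbabilityMeasure Load) : Measure Load) (K m)ᶜ =
        (PP lam) {ω | gW drain join 0 ω n ∉ Icc (0 : Load) (fun _ => (m : ℝ) + 8)} := by
      show ((PP lam).map (fun ω => gW drain join 0 ω n)) (K m)ᶜ = _
      rw [Measure.map_apply (measurable_gW' 0 n) measurableSet_Icc.compl]
      rfl
    rw [h2]
    exact h1)
  have hlim : Tendsto νn (hyperfilter ℕ : Filter ℕ) (𝓝 π) := hπlim
  refine ⟨(π : Measure Load), inferInstance, ?_, ?_⟩
  · -- support
    have hms : MeasurableSet {x : Load | ∀ i, 0 ≤ x i} := by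
      have : {x : Load | ∀ i, 0 ≤ x i} = ⋂ i, {x | 0 ≤ x i} := by ext; simp
      rw [this]
      exact MeasurableSet.iInter (fun i => measurableSet_le measurable_const (measurable_pi_apply i))
    rw [prob_compl_eq_zero_iff hms |>.symm]
    have hle : ∀ m, (π : Measure Load) {x | ∀ i, 0 ≤ x i}ᶜ ≤ (u m : ℝ≥0∞) := by
      intro m
      have h1 : (π : ProbabilityMeasure Load) (K m)ᶜ ≤ u m := hπmem m
      rw [← ENNReal.coe_le_coe, ProbabilityMeasure.ennreal_coeFn_eq_coeFn_toMeasure] at h1
      refine le_trans (measure_mono ?_) h1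
      intro x hx hxK
      exact hx (fun i => hxK.1 i)
    have h0 : Tendsto (fun m => (u m : ℝ≥0∞)) atTop (𝓝 0) := by
      have := (ENNReal.continuous_coe.tendsto 0).comp hut
      simpa [Function.comp_def] using this
    exact le_antisymm (ge_of_tendsto' h0 hle) zero_le
  · have hT : Tendsto ν atTop (𝓝 π) := by
      rw [ProbabilityMeasure.tendsto_iff_forall_lintegral_tendsto]
      intro g
      have hF : ∀ t : ℝ, ∫⁻ x, g x ∂(ν t : Measure Load) = ∫⁻ ω, g (gW drain join 0 ω t) ∂(PP lam) := by
        intro t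
        show ∫⁻ x, g x ∂((PP lam).map (fun ω => gW drain join 0 ω t)) = _
        exact lintegral_map (g.continuous.measurable.coe_nnreal_ennreal) (measurable_gW' 0 t)
      set b : ℝ≥0 := nndist g 0 with hb
      have hgb : ∀ x, (g x : ℝ≥0∞) ≤ b := fun x => by
        exact_mod_cast BoundedContinuousFunction.NNReal.upper_bound g x
      have hfin : ∀ (μ : ProbabilityMeasure Load), ∫⁻ x, g x ∂(μ : Measure Load) ≠ ⊤ := by
        intro μ
        have : ∫⁻ x, g x ∂(μ : Measure Load) ≤ b := by
          calc _ ≤ ∫⁻ _, (b : ℝ≥0∞) ∂(μ : Measure Load) := lintegral_mono hgb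
            _ = b := by simp
        exact ne_top_of_le_ne_top ENNReal.coe_ne_top this
      rw [← ENNReal.tendsto_toReal_iff (fun t => hfin (ν t)) (hfin π)]
      set f : ℝ → ℝ := fun t => (∫⁻ x, g x ∂(ν t : Measure Load)).toReal with hf
      set L : ℝ := (∫⁻ x, g x ∂(π : Measure Load)).toReal with hL
      have hdiff : ∀ s t, 0 ≤ s → 0 ≤ t → |f (s + t) - f t| ≤ b * (C' * Real.exp (-(δ * t))) := by
        intro s t hs ht
        obtain ⟨h1, h2⟩ := hcau (fun x => (g x : ℝ≥0∞)) b (g.continuous.measurable.coe_nnreal_ennreal) hgb s t hs ht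
        rw [← hF, ← hF] at h1 h2
        have hpos : 0 ≤ C' * Real.exp (-(δ * t)) := by positivity
        have e1 : ((b : ℝ≥0∞) * ENNReal.ofReal (C' * Real.exp (-(δ * t)))).toReal =
            b * (C' * Real.exp (-(δ * t))) := by
          rw [ENNReal.toReal_mul, ENNReal.toReal_ofReal hpos]; simp
        have hne : (b : ℝ≥0∞) * ENNReal.ofReal (C' * Real.exp (-(δ * t))) ≠ ⊤ :=
          ENNReal.mul_ne_top ENNReal.coe_ne_top ENNReal.ofReal_ne_top
        have h1' := ENNReal.toReal_mono (ENNReal.add_ne_top.2 ⟨hfin _, hne⟩) h1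
        have h2' := ENNReal.toReal_mono (ENNReal.add_ne_top.2 ⟨hfin _, hne⟩) h2
        rw [ENNReal.toReal_add (hfin _) hne, e1] at h1' h2'
        rw [abs_le]
        constructor
        · simp only [hf]; linarith
        · simp only [hf]; linarith
      have hlimn : Tendsto (fun n : ℕ => f (n : ℝ)) (hyperfilter ℕ : Filter ℕ) (𝓝 L) := by
        have h3 := (ProbabilityMeasure.tendsto_iff_forall_lintegral_tendsto.1 hlim) g
        exact (ENNReal.tendsto_toReal (hfin π)).comp h3
      rw [Metric.tendsto_atTop]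
      intro e he
      have hexp : Tendsto (fun n : ℕ => (b : ℝ) * (C' * Real.exp (-(δ * (n : ℝ))))) atTop (𝓝 (b * (C' * 0))) := by
        have h1 : Tendsto (fun m : ℕ => δ * (m : ℝ)) atTop atTop :=
          tendsto_natCast_atTop_atTop.const_mul_atTop hδ
        exact ((Real.tendsto_exp_neg_atTop_nhds_zero.comp h1).const_mul C').const_mul _
      simp only [mul_zero] at hexp
      have ev1 : ∀ᶠ n : ℕ in (hyperfilter ℕ : Filter ℕ), (b : ℝ) * (C' * Real.exp (-(δ * (n : ℝ)))) < e / 2 :=
        Nat.hyperfilter_le_atTop (hexp.eventually_lt_const (by linarith))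
      have ev2 : ∀ᶠ n : ℕ in (hyperfilter ℕ : Filter ℕ), dist (f n) L < e / 2 :=
        (Metric.tendsto_nhds.1 hlimn) (e / 2) (by linarith)
      obtain ⟨n, hn1, hn2⟩ := (ev1.and ev2).exists
      refine ⟨n, fun t ht => ?_⟩
      have h4 := hdiff (t - n) n (by linarith) (Nat.cast_nonneg n)
      rw [sub_add_cancel] at h4
      calc dist (f t) L ≤ dist (f t) (f n) + dist (f n) L := dist_triangle _ _ _
        _ < e / 2 + e / 2 := by
            apply add_lt_add _ hn2
            rw [Real.dist_eq]; linarith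
        _ = e := by ring
    intro g
    have h5 := (ProbabilityMeasure.tendsto_iff_forall_integral_tendsto.1 hT) g
    refine h5.congr ?_
    intro t
    show ∫ x, g x ∂((PP lam).map (fun ω => gW drain join 0 ω t)) = _
    exact integral_map (measurable_gW' 0 t).aemeasurable g.continuous.aestronglyMeasurable

end Pool.Agent.Helper52.Tri
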