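import Pool.Agent.Helper52.TriC
open MeasureTheory ProbabilityTheory Filter Topology Set
open scoped ENNReal NNReal

set_option linter.unusedSectionVars false
namespace Pool.Agent.Helper52.Tri

/-! ### the lattice regime -/

def psiT (a b : ℤ) : ℤ :=
  if a = 0 then (if b = 0 then 87 else if b = 1 then 67 else if b = 2 then 44 else if b = 3 then 23
    else if b = 4 then 6 else 0) else
  if a = 1 then (if b = 0 then 67 else if b = 1 then 80 else if b = 2 then 59 else if b = 3 then 37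
    else if b = 4 then 17 else if b = 5 then 1 else 0) else
  if a = 2 then (if b = 0 then 44 else if b = 1 then 57 else if b = 2 then 68 else if b = 3 then 49
    else if b = 4 then 28 else if b = 5 then 9 else 0) else
  if a = 3 then (if b = 0 then 23 else if b = 1 then 35 else if b = 2 then 45 else 0) else
  if a = 4 then (if b = 0 then 6 else if b = 1 then 14 else if b = 2 then 23 else 0) else
  if a = 5 then (if b = 2 then 6 else 0) else 0

def psi (a b : ℤ) : ℤ := if a < 6 ∧ b < 6 then psiT a b else 0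

theorem psi_bd (a b : ℤ) : 0 ≤ psi a b ∧ psi a b ≤ 87 := by
  unfold psi psiT
  repeat' split
  all_goals norm_num

theorem psi_zero {a b : ℤ} (h : 6 ≤ a ∨ 6 ≤ b) : psi a b = 0 := by
  unfold psi; rw [if_neg (by omega)]

theorem psi_symm (a : ℤ) : psi a 0 = psi 0 a := by
  by_cases h : 0 ≤ a ∧ a < 6
  · obtain ⟨h1, h2⟩ := h
    interval_cases a <;> rfl
  · have : a ≠ 0 ∧ a ≠ 1 ∧ a ≠ 2 ∧ a ≠ 3 ∧ a ≠ 4 ∧ a ≠ 5 := by omega
    simp [psi, psiT, this]

def GG (a b : ℤ) : ℤ := 36 * max a b + psi a b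

theorem GG_symm (a : ℤ) : GG a 0 = GG 0 a := by
  unfold GG; rw [psi_symm, max_comm]

noncomputable def U4 (W : Load) : ℝ :=
  if W 1 ≤ W 0 ∧ W 2 ≤ W 0 then 3 * W 0 - (GG ⌊W 0 - W 2⌋ ⌊W 0 - W 1⌋ : ℝ) / 12 else
  if W 2 ≤ W 1 ∧ W 0 ≤ W 1 then 3 * W 1 - (GG ⌊W 1 - W 0⌋ ⌊W 1 - W 2⌋ : ℝ) / 12 else
  3 * W 2 - (GG ⌊W 2 - W 1⌋ ⌊W 2 - W 0⌋ : ℝ) / 12

theorem U4_TF {W : Load} {M : Fin 3} {t : ℝ} {a b : ℤ} (h : TF W M t a b) (ha : 0 ≤ a) (hb : 0 ≤ b) :
    U4 W = 3 * t - (GG a b : ℝ) / 12 := by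
  have ha' : (0:ℝ) ≤ a := by exact_mod_cast ha
  have hb' : (0:ℝ) ≤ b := by exact_mod_cast hb
  obtain ⟨h1, h2, h3⟩ := h
  unfold U4
  fin_cases M
  · change W 0 = t at h1
    change W 2 = t - a at h2
    change W 1 = t - b at h3
    rw [if_pos ⟨by linarith, by linarith⟩, h1, h2, h3]
    rw [show t - (t - (a:ℝ)) = a by ring, show t - (t - (b:ℝ)) = b by ring, Int.floor_intCast, Int.floor_intCast]
  · change W 1 = t at h1
    change W 0 = t - a at h2
    change W 2 = t - b at h3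
    by_cases hc : W 1 ≤ W 0 ∧ W 2 ≤ W 0
    · rw [if_pos hc]
      have ha0 : (a:ℝ) = 0 := by linarith [hc.1]
      have ha1 : a = 0 := by exact_mod_cast ha0
      rw [h1, h2, h3, ha0, ha1]
      rw [show t - 0 - (t - (b:ℝ)) = b by ring, show t - 0 - t = ((0:ℤ):ℝ) by push_cast; ring,
        Int.floor_intCast, Int.floor_intCast, GG_symm]
      ring
    · rw [if_neg hc, if_pos ⟨by linarith, by linarith⟩, h1, h2, h3]
      rw [show t - (t - (a:ℝ)) = a by ring, show t - (t - (b:ℝ)) = b by ring, Int.floor_intCast, Int.floor_intCast]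
  · change W 2 = t at h1
    change W 1 = t - a at h2
    change W 0 = t - b at h3
    by_cases hc : W 1 ≤ W 0 ∧ W 2 ≤ W 0
    · rw [if_pos hc]
      have hb0 : (b:ℝ) = 0 := by linarith [hc.2]
      have hb1 : b = 0 := by exact_mod_cast hb0
      rw [h1, h2, h3, hb0, hb1]
      rw [show t - 0 - (t - (a:ℝ)) = a by ring, show t - 0 - t = ((0:ℤ):ℝ) by push_cast; ring,
        Int.floor_intCast, Int.floor_intCast, GG_symm]
      ring
    · rw [if_neg hc]
      by_cases hc2 : W 2 ≤ W 1 ∧ W 0 ≤ W 1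
      · rw [if_pos hc2]
        have ha0 : (a:ℝ) = 0 := by linarith [hc2.1]
        have ha1 : a = 0 := by exact_mod_cast ha0
        rw [h1, h2, h3, ha0, ha1]
        rw [show t - 0 - (t - (b:ℝ)) = b by ring, show t - 0 - t = ((0:ℤ):ℝ) by push_cast; ring,
          Int.floor_intCast, Int.floor_intCast, GG_symm]
        ring
      · rw [if_neg hc2, h1, h2, h3]
        rw [show t - (t - (a:ℝ)) = a by ring, show t - (t - (b:ℝ)) = b by ring, Int.floor_intCast,
          Int.floor_intCast]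

def H2 (q a b : ℤ) : ℤ := if q ≤ a then -GG (a - q) b else 36 * (q - a) - GG (q - a + b) (q - a)
def H1 (q a b : ℤ) : ℤ := if q ≤ b then -GG a (b - q) else 36 * (q - b) - GG (q - b) (q - b + a)
def H0 (b : ℤ) : ℤ := 72 - GG 2 (b + 2)

theorem cell_unst (a b : ℤ) (ha : 0 ≤ a) (hb : 0 ≤ b) (hm : a ≤ 2 ∨ b ≤ 2) :
    57 ≤ (if 0 < a then H2 1 a b else H0 b) + H1 2 a b + (if a < b then H1 1 a b else H2 2 a b) + 3 * GG a b := by
  by_cases h8 : a < 8 ∧ b < 8
  · obtain ⟨h1, h2⟩ := h8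
    interval_cases a <;> interval_cases b <;> first | (exfalso; omega) | decide
  · by_cases ha8 : 8 ≤ a
    · have hb2 : b ≤ 2 := by omega
      rw [if_pos (by omega), if_neg (by omega)]
      unfold H2 H1
      rw [if_pos (show (1:ℤ) ≤ a by omega), if_pos (show (2:ℤ) ≤ a by omega)]
      unfold GG
      interval_cases b
      · rw [if_neg (by norm_num), psi_zero (a := a - 1) (by omega), psi_zero (a := a - 2) (by omega),
          psi_zero (a := a) (by omega), psi_zero (b := 2 - 0 + a) (by omega)]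
        omega
      · rw [if_neg (by norm_num), psi_zero (a := a - 1) (by omega), psi_zero (a := a - 2) (by omega),
          psi_zero (a := a) (by omega), psi_zero (b := 2 - 1 + a) (by omega)]
        omega
      · rw [if_pos (by norm_num), psi_zero (a := a - 1) (by omega), psi_zero (a := a - 2) (by omega),
          psi_zero (a := a) (by omega), psi_zero (a := a) (by omega)]
        omega
    · have hb8 : 8 ≤ b := by omega
      have ha2 : a ≤ 2 := by omega
      rw [if_pos (show a < b by omega)]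
      unfold H2 H1 H0
      rw [if_pos (show 2 ≤ b by omega), if_pos (show 1 ≤ b by omega)]
      unfold GG
      rw [psi_zero (b := b - 2) (by omega), psi_zero (b := b - 1) (by omega), psi_zero (a := a) (b := b) (by omega)]
      by_cases ha0 : 0 < a
      · rw [if_pos ha0, if_pos (by omega), psi_zero (b := b) (by omega)]
        omega
      · rw [if_neg ha0, psi_zero (b := b + 2) (by omega)]
        omega

theorem H2_bd (q a b : ℤ) (hq : 1 ≤ q) (hq2 : q ≤ 2) (ha : 0 ≤ a) (hb : 0 ≤ b) :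
    |H2 q a b + GG a b| ≤ 168 := by
  unfold H2 GG
  have p1 := psi_bd a b
  split_ifs
  · have p2 := psi_bd (a - q) b
    rw [abs_le]; omega
  · have p2 := psi_bd (q - a + b) (q - a)
    rw [abs_le]; omega

theorem H1_bd (q a b : ℤ) (hq : 1 ≤ q) (hq2 : q ≤ 2) (ha : 0 ≤ a) (hb : 0 ≤ b) :
    |H1 q a b + GG a b| ≤ 168 := by
  unfold H1 GG
  have p1 := psi_bd a b
  split_ifs
  · have p2 := psi_bd a (b - q)
    rw [abs_le]; omega
  · have p2 := psi_bd (q - b) (q - b + a)
    rw [abs_le]; omega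

theorem H0_bd (b : ℤ) (hb : 0 ≤ b) : |H0 b + GG 0 b| ≤ 168 := by
  unfold H0 GG
  have p1 := psi_bd 0 b
  have p2 := psi_bd 2 (b + 2)
  rw [abs_le]; omega

theorem U4_H2 {W : Load} {M : Fin 3} {t : ℝ} {a b q : ℤ} (h : TF W M t a b) (_ha : 0 ≤ a) (hb : 0 ≤ b) :
    U4 (Function.update W (M + 2) (W (M + 2) + q)) = 3 * t + (H2 q a b : ℝ) / 12 := by
  unfold H2
  split_ifs with hq
  · have := TF_up2 (q := (q:ℝ)) h
    rw [show ((a:ℝ) - q) = ((a - q : ℤ) : ℝ) by push_cast; ring] at this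
    rw [U4_TF this (by omega) hb]; push_cast; ring
  · have := TF_up2' (q := (q:ℝ)) h
    rw [show ((q:ℝ) - a + b) = ((q - a + b : ℤ) : ℝ) by push_cast; ring,
      show ((q:ℝ) - a) = ((q - a : ℤ) : ℝ) by push_cast; ring] at this
    rw [U4_TF this (by omega) (by omega)]; push_cast; ring

theorem U4_H1 {W : Load} {M : Fin 3} {t : ℝ} {a b q : ℤ} (h : TF W M t a b) (ha : 0 ≤ a) (_hb : 0 ≤ b) :
    U4 (Function.update W (M + 1) (W (M + 1) + q)) = 3 * t + (H1 q a b : ℝ) / 12 := by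
  unfold H1
  split_ifs with hq
  · have := TF_up1 (q := (q:ℝ)) h
    rw [show ((b:ℝ) - q) = ((b - q : ℤ) : ℝ) by push_cast; ring] at this
    rw [U4_TF this ha (by omega)]; push_cast; ring
  · have := TF_up1' (q := (q:ℝ)) h
    rw [show ((q:ℝ) - b + a) = ((q - b + a : ℤ) : ℝ) by push_cast; ring,
      show ((q:ℝ) - b) = ((q - b : ℤ) : ℝ) by push_cast; ring] at this
    rw [U4_TF this (by omega) (by omega)]; push_cast; ring

theorem U4_H0 {W : Load} {M : Fin 3} {t : ℝ} {a b : ℤ} (h : TF W M t a b) (ha : a = 0) (hb : 0 ≤ b) :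
    U4 (Function.update W M (W M + 2)) = 3 * t + (H0 b : ℝ) / 12 := by
  subst ha
  have := TF_up0 (q := (2:ℝ)) h
  rw [show (((0:ℤ):ℝ) + 2) = ((2 : ℤ) : ℝ) by push_cast; ring,
      show ((b:ℝ) + 2) = ((b + 2 : ℤ) : ℝ) by push_cast; ring] at this
  rw [U4_TF this (by norm_num) (by omega)]
  unfold H0; push_cast; ring

/-- lattice states in the strip -/
def Lat (W : Load) : Prop := (∀ i j, ∃ n : ℤ, W i - W j = n) ∧ (∀ i, ∃ j, j ≠ i ∧ W i - 2 ≤ W j)

theorem Lat_top {W : Load} (hW : Lat W) :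
    ∃ (M : Fin 3) (t : ℝ) (a b : ℤ), TF W M t a b ∧ 0 ≤ a ∧ 0 ≤ b ∧ (a ≤ 2 ∨ b ≤ 2) := by
  obtain ⟨hg, hst⟩ := hW
  obtain ⟨M, hM⟩ : ∃ M, ∀ i, W i ≤ W M := by
    obtain ⟨M, _, hM⟩ := Finset.exists_max_image Finset.univ W ⟨0, Finset.mem_univ 0⟩
    exact ⟨M, fun i => hM i (Finset.mem_univ i)⟩
  obtain ⟨a, ha⟩ := hg M (M + 2)
  obtain ⟨b, hb⟩ := hg M (M + 1)
  have ha0 : (0:ℝ) ≤ a := by rw [← ha]; linarith [hM (M + 2)]
  have hb0 : (0:ℝ) ≤ b := by rw [← hb]; linarith [hM (M + 1)]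
  refine ⟨M, W M, a, b, ⟨rfl, by linarith, by linarith⟩, by exact_mod_cast ha0, by exact_mod_cast hb0, ?_⟩
  obtain ⟨j, hj, hj2⟩ := hst M
  have hj' : j = M + 1 ∨ j = M + 2 := by
    fin_cases M <;> fin_cases j <;> simp_all
  rcases hj' with hj' | hj'
  · right
    rw [hj'] at hj2
    have : (b:ℝ) ≤ 2 := by rw [← hb]; linarith
    exact_mod_cast this
  · left
    rw [hj'] at hj2
    have : (a:ℝ) ≤ 2 := by rw [← ha]; linarith
    exact_mod_cast this

theorem U4_J {W : Load} {M : Fin 3} {t : ℝ} {a b : ℤ} (h : TF W M t a b) (ha : 0 ≤ a) (hb : 0 ≤ b) :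
    U4 (J (M + 2) W) = 3 * t + ((if 0 < a then H2 1 a b else H0 b : ℤ) : ℝ) / 12 ∧
    U4 (J M W) = 3 * t + (H1 2 a b : ℝ) / 12 ∧
    U4 (J (M + 1) W) = 3 * t + ((if a < b then H1 1 a b else H2 2 a b : ℤ) : ℝ) / 12 := by
  refine ⟨?_, ?_, ?_⟩
  · rw [J_c2 h]
    by_cases h0 : 0 < a
    · rw [if_pos h0, if_pos (by exact_mod_cast h0)]
      have := U4_H2 (q := 1) h ha hb
      push_cast at this ⊢; exact this
    · rw [if_neg h0, if_neg (by exact_mod_cast h0)]
      exact U4_H0 h (by omega) hb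
  · rw [J_c0 h (by exact_mod_cast hb)]
    have := U4_H1 (q := 2) h ha hb
    push_cast at this ⊢; exact this
  · rw [J_c1 h]
    by_cases h0 : a < b
    · rw [if_pos h0, if_pos (by exact_mod_cast h0)]
      have := U4_H1 (q := 1) h ha hb
      push_cast at this ⊢; exact this
    · rw [if_neg h0, if_neg (by exact_mod_cast h0)]
      have := U4_H2 (q := 2) h ha hb
      push_cast at this ⊢; exact this

theorem U4_drift {W : Load} (hW : Lat W) : 3 * U4 W + 19 / 4 ≤ ∑ c, U4 (J c W) := by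
  obtain ⟨M, t, a, b, hTF, ha, hb, hm⟩ := Lat_top hW
  obtain ⟨e1, e2, e3⟩ := U4_J hTF ha hb
  have hc := cell_unst a b ha hb hm
  have hc' : (57:ℝ) ≤ ((if 0 < a then H2 1 a b else H0 b : ℤ) : ℝ) + (H1 2 a b : ℝ) +
    ((if a < b then H1 1 a b else H2 2 a b : ℤ) : ℝ) + 3 * (GG a b : ℝ) := by exact_mod_cast hc
  rw [sum_J M, e1, e2, e3, U4_TF hTF ha hb]
  linarith

theorem U4_inc {W : Load} (hW : Lat W) (c : Fin 3) : |U4 (J c W) - U4 W| ≤ 14 := by
  obtain ⟨M, t, a, b, hTF, ha, hb, hm⟩ := Lat_top hW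
  obtain ⟨e1, e2, e3⟩ := U4_J hTF ha hb
  have hc : c = M + 2 ∨ c = M ∨ c = M + 1 := by
    fin_cases M <;> fin_cases c <;> simp
  have key : ∀ (h : ℤ), |h + GG a b| ≤ 168 → |3 * t + (h:ℝ) / 12 - (3 * t - (GG a b : ℝ) / 12)| ≤ 14 := by
    intro h hh
    have hh' : |(h:ℝ) + GG a b| ≤ 168 := by exact_mod_cast hh
    rw [abs_le] at hh' ⊢
    constructor <;> linarith [hh'.1, hh'.2]
  rw [U4_TF hTF ha hb]
  rcases hc with hc | hc | hc
  · subst hc; rw [e1]
    apply key
    split_ifs with h0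
    · exact H2_bd 1 a b le_rfl (by norm_num) ha hb
    · have : a = 0 := by omega
      subst this
      exact H0_bd b hb
  · subst hc; rw [e2]
    exact key _ (H1_bd 2 a b (by norm_num) le_rfl ha hb)
  · subst hc; rw [e3]
    apply key
    split_ifs
    · exact H1_bd 1 a b le_rfl (by norm_num) ha hb
    · exact H2_bd 2 a b (by norm_num) le_rfl ha hb

/-- `U4` is at most three times any coordinate -/
theorem U4_le {W : Load} (hW : Lat W) (i : Fin 3) : U4 W ≤ 3 * W i := by
  obtain ⟨M, t, a, b, hTF, ha, hb, hm⟩ := Lat_top hW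
  rw [U4_TF hTF ha hb]
  have p := psi_bd a b
  have h1 : (0:ℝ) ≤ psi a b := by exact_mod_cast p.1
  have hG : (GG a b : ℝ) = 36 * max (a:ℝ) b + psi a b := by unfold GG; push_cast; ring
  have m1 := le_max_left (a:ℝ) b
  have m2 := le_max_right (a:ℝ) b
  have ha' : (0:ℝ) ≤ a := by exact_mod_cast ha
  obtain ⟨e1, e2, e3⟩ := hTF
  have hi : i = M + 2 ∨ i = M ∨ i = M + 1 := by
    fin_cases M <;> fin_cases i <;> simp
  rw [hG]
  rcases hi with hi | hi | hi
  · subst hi; rw [e2]; linarith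
  · subst hi; rw [e1]; linarith
  · subst hi; rw [e3]; linarith

theorem drain_eq_sub {W : Load} {s : ℝ} (h : ∀ i, s ≤ W i) : drain W s = fun i => W i - s := by
  funext i; unfold drain; exact max_eq_left (by linarith [h i])

theorem Lat_sub {W : Load} (hW : Lat W) {s : ℝ} (h : ∀ i, s ≤ W i) :
    Lat (drain W s) ∧ U4 (drain W s) = U4 W - 3 * s := by
  have hL : Lat (drain W s) := by
    rw [drain_eq_sub h]
    refine ⟨fun i j => ?_, fun i => ?_⟩
    · obtain ⟨n, hn⟩ := hW.1 i j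
      exact ⟨n, by rw [← hn]; ring⟩
    · obtain ⟨j, hj, hj2⟩ := hW.2 i
      exact ⟨j, hj, by linarith⟩
  refine ⟨hL, ?_⟩
  obtain ⟨M, t, a, b, hTF, ha, hb, hm⟩ := Lat_top hW
  have hTF' : TF (drain W s) M (t - s) a b := by
    rw [drain_eq_sub h]
    obtain ⟨e1, e2, e3⟩ := hTF
    refine ⟨by show W M - s = _; rw [e1], by show W (M + 2) - s = _; rw [e2]; ring,
      by show W (M + 1) - s = _; rw [e3]; ring⟩
  rw [U4_TF hTF ha hb, U4_TF hTF' ha hb]; ring

theorem Lat_J {W : Load} (hW : Lat W) (c : Fin 3) : Lat (J c W) := by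
  obtain ⟨hg, hst⟩ := hW
  have key : ∀ (p o : Fin 3) (q : ℤ), p ≠ o → 1 ≤ q → q ≤ 2 → W p ≤ W o →
      Lat (Function.update W p (W p + q)) := by
    intro p o q hpo hq1 hq2 hle
    have hq1' : (1:ℝ) ≤ q := by exact_mod_cast hq1
    have hq2' : (q:ℝ) ≤ 2 := by exact_mod_cast hq2
    refine ⟨?_, ?_⟩
    · intro i j
      obtain ⟨n, hn⟩ := hg i j
      by_cases hip : i = p
      · by_cases hjp : j = p
        · exact ⟨0, by rw [hip, hjp]; simp⟩
        · refine ⟨n + q, ?_⟩
          subst hip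
          rw [Function.update_self, Function.update_of_ne hjp]
          push_cast; linarith
      · by_cases hjp : j = p
        · refine ⟨n - q, ?_⟩
          subst hjp
          rw [Function.update_self, Function.update_of_ne hip]
          push_cast; linarith
        · refine ⟨n, ?_⟩
          rw [Function.update_of_ne hjp, Function.update_of_ne hip]
          exact hn
    · intro i
      by_cases hip : i = p
      · refine ⟨o, by rw [hip]; exact hpo.symm, ?_⟩
        rw [hip, Function.update_self, Function.update_of_ne hpo.symm]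
        linarith
      · obtain ⟨j, hj, hj2⟩ := hst i
        refine ⟨j, hj, ?_⟩
        rw [Function.update_of_ne hip]
        by_cases hjp : j = p
        · subst hjp; rw [Function.update_self]; linarith
        · rw [Function.update_of_ne hjp]; exact hj2
  unfold J join
  dsimp only
  have hcc : c ≠ c + 1 := by fin_cases c <;> decide
  split_ifs with h
  · have := key c (c + 1) 1 hcc le_rfl (by norm_num) h.le
    push_cast at this; exact this
  · have := key (c + 1) c 2 hcc.symm (by norm_num) le_rfl (not_lt.1 h)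
    push_cast at this; exact this

theorem measurable_U4 : Measurable U4 := by
  have hW : ∀ i : Fin 3, Measurable (fun W : Load => W i) := fun i => measurable_pi_apply i
  have hG : ∀ i j k : Fin 3, Measurable (fun W : Load => 3 * W i - (GG ⌊W i - W j⌋ ⌊W i - W k⌋ : ℝ) / 12) := by
    intro i j k
    have h3 : Measurable (fun q : ℤ × ℤ => (GG q.1 q.2 : ℝ)) := measurable_of_countable _
    have h4 : Measurable (fun W : Load => ((⌊W i - W j⌋, ⌊W i - W k⌋) : ℤ × ℤ)) :=
      (Int.measurable_floor.comp ((hW i).sub (hW j))).prodMk (Int.measurable_floor.comp ((hW i).sub (hW k)))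
    exact ((hW i).const_mul 3).sub ((h3.comp h4).div_const 12)
  unfold U4
  apply Measurable.ite
  · exact (measurableSet_le (hW 1) (hW 0)).inter (measurableSet_le (hW 2) (hW 0))
  · exact hG 0 2 1
  · apply Measurable.ite
    · exact (measurableSet_le (hW 2) (hW 1)).inter (measurableSet_le (hW 0) (hW 1))
    · exact hG 1 0 2
    · exact hG 2 1 0

end Pool.Agent.Helper52.Tri
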