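import Pool.Agent.Helper52.TriG
open MeasureTheory ProbabilityTheory Filter Topology Set
open scoped ENNReal NNReal BoundedContinuousFunction

set_option linter.unusedSectionVars false
namespace Pool.Agent.Helper52.Tri

noncomputable def ph : ℝ := 1 / 100000
noncomputable def dd : ℝ := 1 / 100000000
noncomputable def lam0 : ℝ := 19 / 10
noncomputable def ap : ℝ := 19 / 12 * ph - 196 * ph ^ 2

theorem ph_pos : 0 < ph := by unfold ph; norm_num
theorem dd_pos : 0 < dd := by unfold dd; norm_num
theorem lam0_pos : 0 < lam0 := by unfold lam0; norm_num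
theorem ap_lt : ap < 1 := by unfold ap ph; norm_num
theorem rate_ok : lam0 * (1 - ap) ≤ lam0 - 3 * ph - dd := by unfold lam0 ap ph dd; norm_num

theorem lat_avg {W : Load} (hW : Lat W) :
    (∑ c, Real.exp (-(ph * U4 (J c W)))) / 3 ≤ (1 - ap) * Real.exp (-(ph * U4 W)) := by
  have hd := U4_drift hW
  have hph := ph_pos
  have hc : ∀ c, Real.exp (-(ph * U4 (J c W))) ≤ Real.exp (-(ph * U4 W)) *
      (1 - ph * (U4 (J c W) - U4 W) + ph ^ 2 * 196) := by
    intro c
    have hinc := U4_inc hW c
    set D := U4 (J c W) - U4 W with hD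
    have e : Real.exp (-(ph * U4 (J c W))) = Real.exp (-(ph * U4 W)) * Real.exp (-(ph * D)) := by
      rw [← Real.exp_add]; congr 1; rw [hD]; ring
    rw [e]
    apply mul_le_mul_of_nonneg_left _ (Real.exp_pos _).le
    have hu : |(-(ph * D))| ≤ 1 := by
      rw [abs_neg, abs_mul, abs_of_pos hph]
      calc ph * |D| ≤ ph * 14 := by gcongr
        _ ≤ 1 := by unfold ph; norm_num
    have h1 := exp_quad hu
    have h2 : (-(ph * D)) ^ 2 ≤ ph ^ 2 * 196 := by
      rw [neg_sq, mul_pow]
      apply mul_le_mul_of_nonneg_left _ (by positivity)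
      rw [← sq_abs]
      nlinarith [abs_nonneg D]
    linarith
  have hsum : ∑ c, Real.exp (-(ph * U4 (J c W))) ≤
      Real.exp (-(ph * U4 W)) * (3 - ph * (19 / 4) + 3 * (ph ^ 2 * 196)) := by
    calc ∑ c, Real.exp (-(ph * U4 (J c W))) ≤ ∑ c, Real.exp (-(ph * U4 W)) *
          (1 - ph * (U4 (J c W) - U4 W) + ph ^ 2 * 196) :=
          Finset.sum_le_sum (fun c _ => hc c)
      _ = Real.exp (-(ph * U4 W)) * (3 - ph * ((∑ c, U4 (J c W)) - 3 * U4 W) + 3 * (ph ^ 2 * 196)) := by
          simp only [Fin.sum_univ_three]; ring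
      _ ≤ _ := by
          apply mul_le_mul_of_nonneg_left _ (Real.exp_pos _).le
          have : ph * (19 / 4) ≤ ph * ((∑ c, U4 (J c W)) - 3 * U4 W) := by
            apply mul_le_mul_of_nonneg_left _ hph.le
            linarith
          linarith
  have : Real.exp (-(ph * U4 W)) * (3 - ph * (19 / 4) + 3 * (ph ^ 2 * 196)) =
      3 * ((1 - ap) * Real.exp (-(ph * U4 W))) := by unfold ap; ring
  linarith

open Classical in
noncomputable def gk (k : ℝ) (W : Load) : ℝ := if ∃ i, W i ≤ k then 1 else 0

theorem gk_nonneg (k : ℝ) (W : Load) : 0 ≤ gk k W := by unfold gk; split_ifs <;> norm_num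
theorem gk_le (k : ℝ) (W : Load) : gk k W ≤ 1 := by unfold gk; split_ifs <;> norm_num

theorem measurable_gk (k : ℝ) : Measurable (gk k) := by
  unfold gk
  apply Measurable.ite _ measurable_const measurable_const
  have : {W : Load | ∃ i, W i ≤ k} = ⋃ i, {W | W i ≤ k} := by ext; simp
  rw [this]
  exact MeasurableSet.iUnion (fun i => measurableSet_le (measurable_pi_apply i) measurable_const)

theorem gk_lat (k : ℝ) {W : Load} (hW : Lat W) : gk k W ≤ Real.exp (3 * ph * k) * Real.exp (-(ph * U4 W)) := by
  unfold gk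
  split_ifs with h
  · obtain ⟨i, hi⟩ := h
    have h1 := U4_le hW i
    rw [← Real.exp_add]
    apply Real.one_le_exp
    have := ph_pos
    nlinarith
  · positivity

open Classical in
noncomputable def vv (c t : ℝ) (W : Load) : ℝ :=
  if Lat W then min 1 (Real.exp (-(ph * U4 W)) * (1 + c * Real.exp (-(dd * t)))) else 1

theorem vv_le (c t : ℝ) (W : Load) : vv c t W ≤ 1 := by
  unfold vv; split_ifs
  · exact min_le_left _ _
  · exact le_rfl

theorem int_deriv_ab {P q : ℝ → ℝ} {a b : ℝ} (hab : a ≤ b) (hP : ∀ s, HasDerivAt P (-q s) s) (hq : Continuous q)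
    (hq0 : ∀ s ∈ Ioc a b, 0 ≤ q s) :
    ∫⁻ s in Ioc a b, ENNReal.ofReal (q s) = ENNReal.ofReal (P a - P b) ∧ 0 ≤ P a - P b := by
  have hi : IntervalIntegrable q volume a b := hq.intervalIntegrable _ _
  have h1 : ∫ s in a..b, q s = P a - P b := by
    have := intervalIntegral.integral_eq_sub_of_hasDerivAt (a := a) (b := b) (f := P) (f' := fun s => -q s)
      (fun s _ => hP s) hi.neg
    rw [intervalIntegral.integral_neg] at this
    linarith
  constructor
  · rw [← h1, intervalIntegral.integral_of_le hab, ofReal_integral_eq_lintegral_ofReal]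
    · exact (intervalIntegrable_iff_integrableOn_Ioc_of_le hab).1 hi
    · rw [EventuallyLE, ae_restrict_iff' measurableSet_Ioc]
      exact Eventually.of_forall (fun s hs => hq0 s hs)
  · rw [← h1, intervalIntegral.integral_of_le hab]
    exact setIntegral_nonneg measurableSet_Ioc hq0

theorem unst_super {k c : ℝ} (hc : c = Real.exp (3 * ph * k)) {t : ℝ} (ht : 0 ≤ t) (W : Load) :
    ∫⁻ z, (if t < z.1 then ENNReal.ofReal (gk k (drain W t)) else
      ENNReal.ofReal (vv c (t - z.1) (join (drain W z.1) z.2))) ∂(kap lam0) ≤ ENNReal.ofReal (vv c t W) := by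
  have hp := isProbabilityMeasure_expMeasure lam0_pos
  have hc0 : 0 < c := by rw [hc]; exact Real.exp_pos _
  have hph := ph_pos
  have hdd := dd_pos
  have hl := lam0_pos
  have hone : ∫⁻ z, (if t < z.1 then ENNReal.ofReal (gk k (drain W t)) else
      ENNReal.ofReal (vv c (t - z.1) (join (drain W z.1) z.2))) ∂(kap lam0) ≤ 1 := by
    calc _ ≤ ∫⁻ z, (1:ℝ≥0∞) ∂(kap lam0) := by
          apply lintegral_mono
          intro z
          dsimp only
          split_ifs
          · exact ENNReal.ofReal_le_one.2 (gk_le _ _)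
          · exact ENNReal.ofReal_le_one.2 (vv_le _ _ _)
      _ = 1 := by simp
  by_cases hLat : Lat W
  swap
  · have hv1 : vv c t W = 1 := by unfold vv; rw [if_neg hLat]
    rw [hv1]
    simpa using hone
  · have hv : vv c t W = min 1 (Real.exp (-(ph * U4 W)) * (1 + c * Real.exp (-(dd * t)))) := by
      unfold vv; rw [if_pos hLat]
    rw [hv, ENNReal.ofReal_min]
    apply le_min (by simpa using hone)
    set E0 := Real.exp (-(ph * U4 W)) with hE0
    have hE0p : 0 < E0 := Real.exp_pos _
    by_cases hU : U4 W < 0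
    · refine hone.trans ?_
      rw [ENNReal.one_le_ofReal]
      have h1 : 1 ≤ E0 := Real.one_le_exp (by nlinarith)
      have h2 : 0 ≤ c * Real.exp (-(dd * t)) := by positivity
      nlinarith
    · push Not at hU
      set q := U4 W / 3 with hq
      have hq0 : 0 ≤ q := by positivity
      have hcoord : ∀ s, s ≤ q → ∀ i, s ≤ W i := by
        intro s hs i
        have := U4_le hLat i
        rw [hq] at hs
        linarith
      -- the measurable bound
      set B : ℝ × (Fin 3 × (ℝ × ℝ)) → ℝ := fun z =>
        if z.1 ≤ q then Real.exp (-(ph * U4 (join (drain W z.1) z.2))) * (1 + c * Real.exp (-(dd * (t - z.1)))) else 1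
        with hB
      have hB0 : ∀ z, 0 ≤ B z := by
        intro z; simp only [hB]; split_ifs <;> positivity
      have hBm : Measurable B := by
        have hj : Measurable (fun z : ℝ × (Fin 3 × (ℝ × ℝ)) => join (drain W z.1) z.2) :=
          measurable_join.comp ((measurable_drain.comp (measurable_const.prodMk measurable_fst)).prodMk measurable_snd)
        have h1 : Measurable (fun z : ℝ × (Fin 3 × (ℝ × ℝ)) => Real.exp (-(ph * U4 (join (drain W z.1) z.2)))) :=
          (((measurable_U4.comp hj).const_mul ph).neg).exp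
        have h2 : Measurable (fun z : ℝ × (Fin 3 × (ℝ × ℝ)) => (1 + c * Real.exp (-(dd * (t - z.1))))) := by fun_prop
        exact Measurable.ite (measurableSet_le measurable_fst measurable_const) (h1.mul h2) measurable_const
      have hstep1 : ∫⁻ z, (if t < z.1 then ENNReal.ofReal (gk k (drain W t)) else
          ENNReal.ofReal (vv c (t - z.1) (join (drain W z.1) z.2))) ∂(kap lam0) ≤
          ∫⁻ z, (if t < z.1 then ENNReal.ofReal (gk k (drain W t)) else ENNReal.ofReal (B z)) ∂(kap lam0) := by
        apply lintegral_mono_ae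
        filter_upwards [ae_generic lam0_pos W] with z hz
        split_ifs with h
        · exact le_rfl
        · apply ENNReal.ofReal_le_ofReal
          simp only [hB]
          split_ifs with h2
          · have hz2 : z.2 = (z.2.1, (1, 2)) := by rw [← hz.2.1]
            have hL : Lat (join (drain W z.1) z.2) := by
              rw [hz2]
              exact Lat_J (Lat_sub hLat (hcoord _ h2)).1 z.2.1
            unfold vv
            rw [if_pos hL]
            exact min_le_right _ _
          · exact vv_le _ _ _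
      refine hstep1.trans ?_
      rw [T_eq lam0_pos ht _ hBm.ennreal_ofReal]
      -- integrands
      set qq : ℝ → ℝ := fun s => E0 * Real.exp (-((lam0 - 3 * ph) * s)) *
        ((lam0 - 3 * ph) * (1 + c * Real.exp (-(dd * (t - s)))) - dd * (c * Real.exp (-(dd * (t - s))))) with hqq
      set P : ℝ → ℝ := fun s => E0 * Real.exp (-((lam0 - 3 * ph) * s)) * (1 + c * Real.exp (-(dd * (t - s)))) with hP
      have hderiv : ∀ s, HasDerivAt P (-qq s) s := by
        intro s
        have d1 := (hd1 (lam0 - 3 * ph) s).const_mul E0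
        have d2 := ((hd2 dd t s).const_mul c).const_add 1
        have d4 := d1.mul d2
        refine (d4.congr_deriv ?_).congr_of_eventuallyEq (Eventually.of_forall fun r => ?_)
        · simp only [hqq]; ring
        · simp only [hP, Pi.mul_apply]
      have hqqc : Continuous qq := by simp only [hqq]; fun_prop
      have hr := rate_ok
      have hap := ap_lt
      have hinner : ∀ s, 0 < s → s ≤ q → ENNReal.ofReal (lam0 * Real.exp (-(lam0 * s))) *
          (∫⁻ k, ENNReal.ofReal (B (s, k)) ∂mu12) ≤ ENNReal.ofReal (qq s) ∧ 0 ≤ qq s := by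
        intro s hs0 hsq
        have hBs : Measurable (fun k : Fin 3 × (ℝ × ℝ) => B (s, k)) := hBm.comp (measurable_const.prodMk measurable_id)
        have hL := Lat_sub hLat (hcoord s hsq)
        have havg := lat_avg hL.1
        set Z := c * Real.exp (-(dd * (t - s))) with hZ
        have hZ0 : 0 < Z := by positivity
        have e1 : (∑ i, B (s, (i, (1, 2)))) / 3 = (∑ i, Real.exp (-(ph * U4 (J i (drain W s))))) / 3 * (1 + Z) := by
          simp only [hB, if_pos hsq, Fin.sum_univ_three, J]; ring
        have e2 : Real.exp (-(ph * U4 (drain W s))) = E0 * Real.exp (3 * ph * s) := by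
          rw [hL.2, hE0, ← Real.exp_add]; congr 1; ring
        have e3 : Real.exp (-(lam0 * s)) * Real.exp (3 * ph * s) = Real.exp (-((lam0 - 3 * ph) * s)) := by
          rw [← Real.exp_add]; congr 1; ring
        have hmain : lam0 * Real.exp (-(lam0 * s)) * ((∑ i, B (s, (i, (1, 2)))) / 3) ≤ qq s := by
          rw [e1]
          rw [e2] at havg
          calc lam0 * Real.exp (-(lam0 * s)) * ((∑ i, Real.exp (-(ph * U4 (J i (drain W s))))) / 3 * (1 + Z))
              ≤ lam0 * Real.exp (-(lam0 * s)) * (((1 - ap) * (E0 * Real.exp (3 * ph * s))) * (1 + Z)) := by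
                gcongr
            _ = (lam0 * (1 - ap)) * (E0 * (Real.exp (-(lam0 * s)) * Real.exp (3 * ph * s)) * (1 + Z)) := by ring
            _ = (lam0 * (1 - ap)) * (E0 * Real.exp (-((lam0 - 3 * ph) * s)) * (1 + Z)) := by rw [e3]
            _ ≤ (lam0 - 3 * ph - dd) * (E0 * Real.exp (-((lam0 - 3 * ph) * s)) * (1 + Z)) := by gcongr
            _ ≤ qq s := by
                simp only [hqq]
                rw [← hZ]
                have : 0 ≤ E0 * Real.exp (-((lam0 - 3 * ph) * s)) * dd := by positivity
                nlinarith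
        have hpos : 0 ≤ lam0 * Real.exp (-(lam0 * s)) * ((∑ i, B (s, (i, (1, 2)))) / 3) := by
          have : 0 ≤ ∑ i, B (s, (i, (1, 2))) := Finset.sum_nonneg (fun i _ => hB0 _)
          positivity
        refine ⟨?_, hpos.trans hmain⟩
        rw [lint_mu12_ofReal hBs (fun i => hB0 _), ← ENNReal.ofReal_mul (by positivity)]
        exact ENNReal.ofReal_le_ofReal hmain
      have hP0 : P 0 = E0 * (1 + c * Real.exp (-(dd * t))) := by
        simp only [hP, sub_zero, mul_zero, neg_zero, Real.exp_zero]; ring
      rw [← hP0]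
      rcases le_or_gt t q with htq | htq
      · -- no exit before t
        have hq0' : ∀ s ∈ Ioc 0 t, 0 ≤ qq s := fun s hs => (hinner s hs.1 (hs.2.trans htq)).2
        obtain ⟨hi1, hi2⟩ := int_deriv_ab ht hderiv hqqc hq0'
        have hint : ∫⁻ s in Ioc (0:ℝ) t, ENNReal.ofReal (lam0 * Real.exp (-(lam0 * s))) *
            ∫⁻ k, ENNReal.ofReal (B (s, k)) ∂mu12 ≤ ENNReal.ofReal (P 0 - P t) := by
          rw [← hi1]
          apply setLIntegral_mono hqqc.measurable.ennreal_ofReal
          intro s hs
          exact (hinner s hs.1 (hs.2.trans htq)).1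
        have hL := Lat_sub hLat (hcoord t htq)
        have hg := gk_lat k hL.1
        have hbd : Real.exp (-(lam0 * t)) * gk k (drain W t) ≤ P t := by
          rw [hL.2, ← hc] at hg
          have e2 : Real.exp (-(ph * (U4 W - 3 * t))) = E0 * Real.exp (3 * ph * t) := by
            rw [hE0, ← Real.exp_add]; congr 1; ring
          rw [e2] at hg
          have e3 : Real.exp (-(lam0 * t)) * Real.exp (3 * ph * t) = Real.exp (-((lam0 - 3 * ph) * t)) := by
            rw [← Real.exp_add]; congr 1; ring
          calc Real.exp (-(lam0 * t)) * gk k (drain W t) ≤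
                Real.exp (-(lam0 * t)) * (c * (E0 * Real.exp (3 * ph * t))) := by gcongr
            _ = E0 * (Real.exp (-(lam0 * t)) * Real.exp (3 * ph * t)) * c := by ring
            _ = E0 * Real.exp (-((lam0 - 3 * ph) * t)) * c := by rw [e3]
            _ ≤ P t := by
                simp only [hP, sub_self, mul_zero, neg_zero, Real.exp_zero]
                have : 0 < E0 * Real.exp (-((lam0 - 3 * ph) * t)) := by positivity
                nlinarith
        calc _ ≤ ENNReal.ofReal (Real.exp (-(lam0 * t))) * ENNReal.ofReal (gk k (drain W t)) +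
              ENNReal.ofReal (P 0 - P t) := by gcongr
          _ = ENNReal.ofReal (Real.exp (-(lam0 * t)) * gk k (drain W t) + (P 0 - P t)) := by
              rw [← ENNReal.ofReal_mul (Real.exp_pos _).le, ← ENNReal.ofReal_add _ hi2]
              exact mul_nonneg (Real.exp_pos _).le (gk_nonneg _ _)
          _ ≤ ENNReal.ofReal (P 0) := ENNReal.ofReal_le_ofReal (by linarith)
      · -- possible exit
        have hq0' : ∀ s ∈ Ioc 0 q, 0 ≤ qq s := fun s hs => (hinner s hs.1 hs.2).2
        obtain ⟨hi1, hi2⟩ := int_deriv_ab hq0 hderiv hqqc hq0'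
        have hint1 : ∫⁻ s in Ioc (0:ℝ) q, ENNReal.ofReal (lam0 * Real.exp (-(lam0 * s))) *
            ∫⁻ k, ENNReal.ofReal (B (s, k)) ∂mu12 ≤ ENNReal.ofReal (P 0 - P q) := by
          rw [← hi1]
          apply setLIntegral_mono hqqc.measurable.ennreal_ofReal
          intro s hs
          exact (hinner s hs.1 hs.2).1
        have hd3 : ∀ s, HasDerivAt (fun s : ℝ => Real.exp (-(lam0 * s))) (-(lam0 * Real.exp (-(lam0 * s)))) s := by
          intro s
          exact (hd1 lam0 s).congr_deriv (by ring)
        have hc3 : Continuous (fun s : ℝ => lam0 * Real.exp (-(lam0 * s))) := by fun_prop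
        obtain ⟨hj1, hj2⟩ := int_deriv_ab htq.le hd3 hc3 (fun s _ => by positivity)
        have hint2 : ∫⁻ s in Ioc q t, ENNReal.ofReal (lam0 * Real.exp (-(lam0 * s))) *
            ∫⁻ k, ENNReal.ofReal (B (s, k)) ∂mu12 ≤
            ENNReal.ofReal (Real.exp (-(lam0 * q)) - Real.exp (-(lam0 * t))) := by
          rw [← hj1]
          apply setLIntegral_mono hc3.measurable.ennreal_ofReal
          intro s hs
          have : ∀ k, B (s, k) = 1 := by
            intro k; simp only [hB]; rw [if_neg (not_le.2 hs.1)]
          simp [this]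
        have hsplit : ∫⁻ s in Ioc (0:ℝ) t, ENNReal.ofReal (lam0 * Real.exp (-(lam0 * s))) *
            ∫⁻ k, ENNReal.ofReal (B (s, k)) ∂mu12 ≤
            ENNReal.ofReal (P 0 - P q) + ENNReal.ofReal (Real.exp (-(lam0 * q)) - Real.exp (-(lam0 * t))) := by
          rw [← Ioc_union_Ioc_eq_Ioc hq0 htq.le, lintegral_union measurableSet_Ioc (by
            rw [Set.disjoint_left]; intro s hs hs2; exact absurd hs.2 (not_le.2 hs2.1))]
          exact add_le_add hint1 hint2
        have hPq : Real.exp (-(lam0 * q)) ≤ P q := by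
          have e4 : E0 * Real.exp (3 * ph * q) = 1 := by
            rw [hE0, ← Real.exp_add, hq]
            rw [show -(ph * U4 W) + 3 * ph * (U4 W / 3) = 0 by ring, Real.exp_zero]
          have e3 : Real.exp (-(lam0 * q)) * Real.exp (3 * ph * q) = Real.exp (-((lam0 - 3 * ph) * q)) := by
            rw [← Real.exp_add]; congr 1; ring
          have e5 : E0 * Real.exp (-((lam0 - 3 * ph) * q)) = Real.exp (-(lam0 * q)) := by
            rw [← e3]
            calc _ = Real.exp (-(lam0 * q)) * (E0 * Real.exp (3 * ph * q)) := by ring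
              _ = _ := by rw [e4, mul_one]
          simp only [hP]
          rw [e5]
          have h1 := Real.exp_pos (-(lam0 * q))
          have h2 : 0 < c * Real.exp (-(dd * (t - q))) := by positivity
          nlinarith
        calc _ ≤ ENNReal.ofReal (Real.exp (-(lam0 * t))) * 1 +
              (ENNReal.ofReal (P 0 - P q) + ENNReal.ofReal (Real.exp (-(lam0 * q)) - Real.exp (-(lam0 * t)))) := by
              gcongr
              exact ENNReal.ofReal_le_one.2 (gk_le _ _)
          _ = ENNReal.ofReal (Real.exp (-(lam0 * t)) + ((P 0 - P q) + (Real.exp (-(lam0 * q)) - Real.exp (-(lam0 * t))))) := by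
              rw [mul_one, ← ENNReal.ofReal_add hi2 hj2, ← ENNReal.ofReal_add (Real.exp_pos _).le (by linarith)]
          _ ≤ ENNReal.ofReal (P 0) := ENNReal.ofReal_le_ofReal (by linarith)

/-- the workloads escape -/
theorem escape_bound {W : Load} (hW : Lat W) (k : ℝ) {t : ℝ} (ht : 0 ≤ t) :
    ∫⁻ ω, ENNReal.ofReal (gk k (gW drain join W ω t)) ∂(Measure.infinitePi (fun _ : ℕ => kap lam0)) ≤
      ENNReal.ofReal (Real.exp (-(ph * U4 W)) * (1 + Real.exp (3 * ph * k) * Real.exp (-(dd * t)))) := by
  have hp := isProbabilityMeasure_expMeasure lam0_pos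
  have h1 := expect_eq (μK := mu12) lam0_pos measurable_drain measurable_join (measurable_gk k).ennreal_ofReal t W
  refine le_trans (le_of_eq h1) ?_
  refine le_trans (Us_le (kap lam0) (fun y => ENNReal.ofReal (gk k y)) (fun t y => ENNReal.ofReal
    (vv (Real.exp (3 * ph * k)) t y)) univ ?_ ?_ ?_ ht (mem_univ W)) ?_
  · filter_upwards [ae_fst_pos (μK := mu12) lam0_pos] with z hz; exact hz.le
  · intro y _; exact Eventually.of_forall (fun z => mem_univ _)
  · intro t ht y _
    exact unst_super rfl ht y
  · apply ENNReal.ofReal_le_ofReal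
    unfold vv
    rw [if_pos hW]
    exact min_le_right _ _

end Pool.Agent.Helper52.Tri
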