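import Pool.Agent.Helper52.TriF
import Pool.Agent.Helper52.TriH
open MeasureTheory ProbabilityTheory Filter Topology Set
open scoped ENNReal NNReal BoundedContinuousFunction

set_option linter.unusedSectionVars false
namespace Pool.Agent.Helper52.Tri

theorem Lat_const (m : ℝ) : Lat (fun _ => m) := by
  refine ⟨fun i j => ⟨0, by simp⟩, fun i => ⟨i + 1, by fin_cases i <;> decide, by linarith⟩⟩

theorem U4_const (m : ℝ) : U4 (fun _ => m) = 3 * m - 87 / 12 := by
  have h : TF (fun _ => m) 0 m ((0:ℤ):ℝ) ((0:ℤ):ℝ) := ⟨rfl, by simp, by simp⟩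
  rw [U4_TF h le_rfl le_rfl]
  have : GG 0 0 = 87 := by decide
  rw [this]; norm_num

theorem E0_lt : Real.exp (-(ph * U4 (fun _ => 100000))) < 1 / 2 := by
  rw [U4_const]
  have h1 : (1:ℝ) < ph * (3 * 100000 - 87 / 12) := by unfold ph; norm_num
  have h2 := Real.add_one_le_exp (ph * (3 * 100000 - 87 / 12))
  rw [Real.exp_neg, one_div]
  apply inv_strictAnti₀ (by norm_num)
  linarith

/-- real form of the escape bound -/
theorem escape_real {W : Load} (hW : Lat W) (k : ℝ) {t : ℝ} (ht : 0 ≤ t) :
    ∫ ω, gk k (gW drain join W ω t) ∂(PP lam0) ≤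
      Real.exp (-(ph * U4 W)) * (1 + Real.exp (3 * ph * k) * Real.exp (-(dd * t))) := by
  rw [integral_eq_lintegral_of_nonneg_ae (Eventually.of_forall (fun ω => gk_nonneg _ _))
    ((measurable_gk k).comp (measurable_gW' W t)).aestronglyMeasurable]
  exact ENNReal.toReal_le_of_le_ofReal (by positivity) (escape_bound hW k ht)

theorem escape_lim (W : Load) (k : ℝ) :
    Tendsto (fun t : ℝ => Real.exp (-(ph * U4 W)) * (1 + Real.exp (3 * ph * k) * Real.exp (-(dd * t)))) atTop
      (𝓝 (Real.exp (-(ph * U4 W)))) := by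
  have h1 : Tendsto (fun t : ℝ => dd * t) atTop atTop := tendsto_id.const_mul_atTop dd_pos
  have h2 := Real.tendsto_exp_neg_atTop_nhds_zero.comp h1
  have h3 := ((h2.const_mul (Real.exp (3 * ph * k))).const_add 1).const_mul (Real.exp (-(ph * U4 W)))
  simpa using h3

theorem escape_event {W : Load} (hW : Lat W) (hE : Real.exp (-(ph * U4 W)) < 1 / 2) (k : ℝ) :
    ∀ᶠ t : ℝ in atTop, (1:ℝ≥0∞) / 2 ≤ (PP lam0) {ω | ∀ i, k < gW drain join W ω t i} := by
  have hp := isProbabilityMeasure_expMeasure lam0_pos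
  filter_upwards [(escape_lim W k).eventually_lt_const hE, eventually_ge_atTop (0:ℝ)] with t h1 ht
  have h2 := escape_bound hW k ht
  have hms : MeasurableSet {ω : ℕ → ℝ × (Fin 3 × (ℝ × ℝ)) | ∀ i, k < gW drain join W ω t i} := by
    have : {ω : ℕ → ℝ × (Fin 3 × (ℝ × ℝ)) | ∀ i, k < gW drain join W ω t i} =
        ⋂ i, {ω | k < gW drain join W ω t i} := by ext; simp
    rw [this]
    exact MeasurableSet.iInter (fun i => measurableSet_lt measurable_const
      ((measurable_pi_apply i).comp (measurable_gW' W t)))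
  have h3 : (PP lam0) {ω | ∀ i, k < gW drain join W ω t i}ᶜ ≤ 1 / 2 := by
    calc _ = ∫⁻ ω, ENNReal.ofReal (gk k (gW drain join W ω t)) ∂(PP lam0) := by
          rw [← lintegral_indicator_one hms.compl]
          apply lintegral_congr
          intro ω
          by_cases h : ∃ i, gW drain join W ω t i ≤ k
          · rw [indicator_of_mem (by simpa using h)]
            unfold gk; rw [if_pos h]; simp
          · rw [indicator_of_notMem (by simpa using h)]
            unfold gk; rw [if_neg h]; simp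
      _ ≤ _ := h2
      _ ≤ ENNReal.ofReal (1 / 2) := ENNReal.ofReal_le_ofReal h1.le
      _ = 1 / 2 := by rw [ENNReal.ofReal_div_of_pos (by norm_num)]; simp
  have h4 := prob_add_prob_compl (μ := PP lam0) hms
  have h5 : (1:ℝ≥0∞) / 2 + 1 / 2 ≤ (PP lam0) {ω | ∀ i, k < gW drain join W ω t i} + 1 / 2 := by
    rw [ENNReal.add_halves 1]
    calc (1:ℝ≥0∞) = _ := h4.symm
      _ ≤ _ := by gcongr
  have hne : (1:ℝ≥0∞) / 2 ≠ ⊤ := by
    rw [one_div]; exact ENNReal.inv_ne_top.2 (by norm_num)
  exact (ENNReal.add_le_add_iff_right hne).1 h5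

theorem not_conv {W : Load} (hW : Lat W) (hE : Real.exp (-(ph * U4 W)) < 1 / 2) :
    ¬ ∃ π : Measure Load, IsProbabilityMeasure π ∧
      ∀ g : Load →ᵇ ℝ, Tendsto (fun t : ℝ => ∫ ω, g (gW drain join W ω t) ∂(PP lam0)) atTop
        (𝓝 (∫ x, g x ∂π)) := by
  rintro ⟨π, hπ, hconv⟩
  have hp := isProbabilityMeasure_expMeasure lam0_pos
  -- test functions
  have hcont : ∀ k : ℕ, Continuous (fun x : Load => max 0 (min 1 ((k:ℝ) + 1 - x 0))) := by
    intro k; fun_prop
  have hbdd : ∀ (k : ℕ) (x : Load), ‖max 0 (min 1 ((k:ℝ) + 1 - x 0))‖ ≤ 1 := by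
    intro k x
    rw [Real.norm_eq_abs, abs_of_nonneg (le_max_left _ _)]
    exact max_le (by norm_num) (min_le_left _ _)
  set g : ℕ → (Load →ᵇ ℝ) := fun k =>
    BoundedContinuousFunction.ofNormedAddCommGroup (fun x : Load => max 0 (min 1 ((k:ℝ) + 1 - x 0)))
      (hcont k) 1 (hbdd k) with hg
  have hgv : ∀ k x, g k x = max 0 (min 1 ((k:ℝ) + 1 - x 0)) := fun k x => rfl
  have hle : ∀ k, ∫ x, g k x ∂π ≤ 1 / 2 := by
    intro k
    apply le_of_tendsto_of_tendsto (hconv (g k)) (escape_lim W (k + 1)) _ |>.trans hE.le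
    filter_upwards [eventually_ge_atTop (0:ℝ)] with t ht
    refine le_trans ?_ (escape_real hW ((k:ℝ) + 1) ht)
    have hint : Integrable (fun ω => gk ((k:ℝ) + 1) (gW drain join W ω t)) (PP lam0) := by
      apply Integrable.of_bound ((measurable_gk _).comp (measurable_gW' W t)).aestronglyMeasurable 1
      apply Eventually.of_forall
      intro ω
      show ‖gk ((k:ℝ) + 1) (gW drain join W ω t)‖ ≤ 1
      rw [Real.norm_eq_abs, abs_of_nonneg (gk_nonneg _ _)]
      exact gk_le _ _
    apply integral_mono_of_nonneg (Eventually.of_forall (fun ω => by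
      show 0 ≤ g k (gW drain join W ω t); rw [hgv]; exact le_max_left _ _)) hint
    apply Eventually.of_forall
    intro ω
    show g k (gW drain join W ω t) ≤ gk ((k:ℝ) + 1) (gW drain join W ω t)
    rw [hgv]
    by_cases h : ∃ i, gW drain join W ω t i ≤ (k:ℝ) + 1
    · unfold gk; rw [if_pos h]
      exact max_le (by norm_num) (min_le_left _ _)
    · unfold gk; rw [if_neg h]
      push Not at h
      exact max_le le_rfl ((min_le_right _ _).trans (by linarith [h 0]))
  -- mass of the sets {x 0 ≤ k}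
  have hmono : Monotone (fun k : ℕ => {x : Load | x 0 ≤ (k:ℝ)}) := by
    intro a b hab x hx
    have : (a:ℝ) ≤ b := by exact_mod_cast hab
    exact le_trans hx this
  have hun : (⋃ k : ℕ, {x : Load | x 0 ≤ (k:ℝ)}) = univ := by
    ext x
    simp only [mem_iUnion, mem_univ, iff_true]
    exact exists_nat_ge (x 0)
  have hlim := tendsto_measure_iUnion_atTop (μ := π) hmono
  rw [hun, measure_univ] at hlim
  have hev : ∀ᶠ k : ℕ in atTop, (1:ℝ≥0∞) / 2 < π {x : Load | x 0 ≤ (k:ℝ)} :=
    hlim.eventually_const_lt (by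
      rw [one_div]
      exact ENNReal.inv_lt_one.2 (by norm_num))
  obtain ⟨k, hk⟩ := hev.exists
  have hms : MeasurableSet {x : Load | x 0 ≤ (k:ℝ)} := measurableSet_le (measurable_pi_apply 0) measurable_const
  have h6 : (π {x : Load | x 0 ≤ (k:ℝ)}).toReal ≤ ∫ x, g k x ∂π := by
    calc (π {x : Load | x 0 ≤ (k:ℝ)}).toReal = ∫ x, {x : Load | x 0 ≤ (k:ℝ)}.indicator (fun _ => (1:ℝ)) x ∂π := by
          rw [integral_indicator hms]; simp [measureReal_def]
      _ ≤ _ := by
          apply integral_mono_of_nonneg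
          · apply Eventually.of_forall
            intro x
            exact indicator_nonneg (fun _ _ => zero_le_one) x
          · exact (g k).integrable _
          · apply Eventually.of_forall
            intro x
            show {x : Load | x 0 ≤ (k:ℝ)}.indicator (fun _ => (1:ℝ)) x ≤ g k x
            rw [hgv]
            by_cases h : x 0 ≤ (k:ℝ)
            · rw [indicator_of_mem (show x ∈ {x : Load | x 0 ≤ (k:ℝ)} from h)]
              rw [min_eq_left (by linarith)]
              exact le_max_right _ _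
            · rw [indicator_of_notMem (show x ∉ {x : Load | x 0 ≤ (k:ℝ)} from h)]
              exact le_max_left _ _
  have h7 : (1:ℝ) / 2 < (π {x : Load | x 0 ≤ (k:ℝ)}).toReal := by
    have := (ENNReal.toReal_lt_toReal (by simp) (measure_ne_top π _)).2 hk
    simpa using this
  linarith [hle k]

theorem rate_stable : lam0 * aa < 3 * th := by unfold lam0 aa th; norm_num

end Pool.Agent.Helper52.Tri
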