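import Pool.Agent.Helper52.TriProc
open MeasureTheory ProbabilityTheory Filter Topology Set
open scoped ENNReal NNReal

set_option linter.unusedSectionVars false
namespace Pool.Agent.Helper52.Tri

abbrev Load := Fin 3 → ℝ

noncomputable def drain (x : Load) (t : ℝ) : Load := fun i => max (x i - t) 0

open Classical in
noncomputable def join (x : Load) (k : Fin 3 × (ℝ × ℝ)) : Load :=
  if x k.1 < x (k.1 + 1) then Function.update x k.1 (x k.1 + k.2.1)
  else Function.update x (k.1 + 1) (x (k.1 + 1) + k.2.2)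

/-- the vector in the coordinates (top server, gaps) -/
def TF (W : Load) (M : Fin 3) (t x y : ℝ) : Prop := W M = t ∧ W (M + 2) = t - x ∧ W (M + 1) = t - y

/-- join with sizes 1 (left) and 2 (right) -/
noncomputable def J (c : Fin 3) (x : Load) : Load := join x (c, (1, 2))

theorem TF_up2 {W : Load} {M : Fin 3} {t x y q : ℝ} (h : TF W M t x y) :
    TF (Function.update W (M + 2) (W (M + 2) + q)) M t (x - q) y := by
  obtain ⟨h1, h2, h3⟩ := h
  fin_cases M <;> simp_all [TF] <;> ring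

theorem TF_up2' {W : Load} {M : Fin 3} {t x y q : ℝ} (h : TF W M t x y) :
    TF (Function.update W (M + 2) (W (M + 2) + q)) (M + 2) (t + (q - x)) (q - x + y) (q - x) := by
  obtain ⟨h1, h2, h3⟩ := h
  fin_cases M <;> simp_all [TF] <;> (try constructor) <;> ring

theorem TF_up1 {W : Load} {M : Fin 3} {t x y q : ℝ} (h : TF W M t x y) :
    TF (Function.update W (M + 1) (W (M + 1) + q)) M t x (y - q) := by
  obtain ⟨h1, h2, h3⟩ := h
  fin_cases M <;> simp_all [TF] <;> ring

theorem TF_up1' {W : Load} {M : Fin 3} {t x y q : ℝ} (h : TF W M t x y) :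
    TF (Function.update W (M + 1) (W (M + 1) + q)) (M + 1) (t + (q - y)) (q - y) (q - y + x) := by
  obtain ⟨h1, h2, h3⟩ := h
  fin_cases M <;> simp_all [TF] <;> (try constructor) <;> ring

theorem TF_up0 {W : Load} {M : Fin 3} {t x y q : ℝ} (h : TF W M t x y) :
    TF (Function.update W M (W M + q)) M (t + q) (x + q) (y + q) := by
  obtain ⟨h1, h2, h3⟩ := h
  fin_cases M <;> simp_all [TF]

/-- class `M+2` joins -/
theorem J_c2 {W : Load} {M : Fin 3} {t x y : ℝ} (h : TF W M t x y) :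
    J (M + 2) W = if 0 < x then Function.update W (M + 2) (W (M + 2) + 1)
      else Function.update W M (W M + 2) := by
  obtain ⟨h1, h2, h3⟩ := h
  have hM : M + 2 + 1 = M := by fin_cases M <;> rfl
  unfold J join
  simp only [hM]
  by_cases hx : 0 < x
  · rw [if_pos hx, if_pos (by rw [h2, h1]; linarith)]
  · rw [if_neg hx, if_neg (by rw [h2, h1]; linarith)]

/-- class `M` joins -/
theorem J_c0 {W : Load} {M : Fin 3} {t x y : ℝ} (h : TF W M t x y) (hy : 0 ≤ y) :
    J M W = Function.update W (M + 1) (W (M + 1) + 2) := by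
  obtain ⟨h1, h2, h3⟩ := h
  unfold J join
  simp only
  rw [if_neg (by rw [h3, h1]; linarith)]

/-- class `M+1` joins -/
theorem J_c1 {W : Load} {M : Fin 3} {t x y : ℝ} (h : TF W M t x y) :
    J (M + 1) W = if x < y then Function.update W (M + 1) (W (M + 1) + 1)
      else Function.update W (M + 2) (W (M + 2) + 2) := by
  obtain ⟨h1, h2, h3⟩ := h
  have hM : M + 1 + 1 = M + 2 := by fin_cases M <;> rfl
  unfold J join
  simp only [hM]
  by_cases hx : x < y
  · rw [if_pos hx, if_pos (by rw [h2, h3]; linarith)]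
  · rw [if_neg hx, if_neg (by rw [h2, h3]; linarith)]

theorem sum_J {f : Load → ℝ} {W : Load} (M : Fin 3) :
    ∑ c, f (J c W) = f (J (M + 2) W) + f (J M W) + f (J (M + 1) W) := by
  rw [Fin.sum_univ_three]
  fin_cases M
  · show f (J 0 W) + f (J 1 W) + f (J 2 W) = f (J 2 W) + f (J 0 W) + f (J 1 W)
    ring
  · show f (J 0 W) + f (J 1 W) + f (J 2 W) = f (J 0 W) + f (J 1 W) + f (J 2 W)
    ring
  · show f (J 0 W) + f (J 1 W) + f (J 2 W) = f (J 1 W) + f (J 2 W) + f (J 0 W)
    ring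

/-! ### Lyapunov function for the generic regime -/

def tabL (i j : ℤ) : ℤ :=
  if i = 0 ∧ j = 4 then 2 else if i = 0 ∧ j = 5 then 7 else if i = 1 ∧ j = 0 then 1 else
  if i = 1 ∧ j = 5 then 2 else if i = 2 ∧ j = 0 then 1 else if i = 2 ∧ j = 1 then 1 else
  if i = 3 ∧ j = 0 then 1 else if i = 3 ∧ j = 1 then 1 else if i = 4 ∧ j = 0 then 2 else
  if i = 4 ∧ j = 1 then 2 else if i = 5 ∧ j = 0 then 8 else if i = 5 ∧ j = 1 then 4 else 0

def tabG (i j : ℤ) : ℤ :=
  if i = 0 ∧ j = 0 then 1 else if i = 0 ∧ j = 4 then 2 else if i = 0 ∧ j = 5 then 4 else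
  if i = 1 ∧ j = 0 then 1 else if i = 1 ∧ j = 1 then 1 else if i = 1 ∧ j = 5 then 1 else
  if i = 2 ∧ j = 0 then 1 else if i = 2 ∧ j = 1 then 1 else if i = 3 ∧ j = 0 then 2 else
  if i = 3 ∧ j = 1 then 2 else if i = 4 ∧ j = 0 then 8 else if i = 4 ∧ j = 1 then 3 else
  if i = 5 ∧ j = 0 then 12 else if i = 5 ∧ j = 1 then 9 else 0

def tab (i j k : ℤ) : ℤ := if k = j - i then tabL i j else tabG i j

theorem tabL_bd (i j : ℤ) : 0 ≤ tabL i j ∧ tabL i j ≤ 12 := by
  unfold tabL; repeat' split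
  all_goals norm_num

theorem ite_bd {c : Prop} [Decidable c] {a b : ℤ} (ha : 0 ≤ a ∧ a ≤ 12) (hb : 0 ≤ b ∧ b ≤ 12) :
    0 ≤ (if c then a else b) ∧ (if c then a else b) ≤ 12 := by
  split
  · exact ha
  · exact hb

theorem tabG_bd (i j : ℤ) : 0 ≤ tabG i j ∧ tabG i j ≤ 12 := by
  unfold tabG
  repeat (refine ite_bd (by norm_num) ?_)
  norm_num

theorem tab_nonneg (i j k : ℤ) : 0 ≤ tab i j k := by
  unfold tab; split
  · exact (tabL_bd i j).1
  · exact (tabG_bd i j).1

theorem tab_le (i j k : ℤ) : tab i j k ≤ 12 := by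
  unfold tab; split
  · exact (tabL_bd i j).2
  · exact (tabG_bd i j).2

noncomputable def UU (t x y : ℝ) : ℝ :=
  if x < 6 ∧ y < 6 then 3 * t - x - y + (tab ⌊x⌋ ⌊y⌋ ⌊y - x⌋ : ℝ) / 3 else 3 * t - 3 / 2 * min x y

noncomputable def U3 (W : Load) : ℝ :=
  if W 1 < W 0 ∧ W 2 < W 0 then UU (W 0) (W 0 - W 2) (W 0 - W 1) else
  if W 2 < W 1 ∧ W 0 < W 1 then UU (W 1) (W 1 - W 0) (W 1 - W 2) else
  UU (W 2) (W 2 - W 1) (W 2 - W 0)

theorem U3_TF {W : Load} {M : Fin 3} {t x y : ℝ} (h : TF W M t x y) (hx : 0 < x) (hy : 0 < y) :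
    U3 W = UU t x y := by
  obtain ⟨h1, h2, h3⟩ := h
  unfold U3
  fin_cases M
  · change W 0 = t at h1
    change W 2 = t - x at h2
    change W 1 = t - y at h3
    rw [if_pos ⟨by linarith, by linarith⟩]
    congr 1 <;> linarith
  · change W 1 = t at h1
    change W 0 = t - x at h2
    change W 2 = t - y at h3
    rw [if_neg (by intro hh; linarith [hh.1]), if_pos ⟨by linarith, by linarith⟩]
    congr 1 <;> linarith
  · change W 2 = t at h1
    change W 1 = t - x at h2
    change W 0 = t - y at h3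
    rw [if_neg (by intro hh; linarith [hh.2]), if_neg (by intro hh; linarith [hh.1])]
    congr 1 <;> linarith

theorem UU_bounds {t x y : ℝ} (hx : 0 ≤ x) (hy : 0 ≤ y) (h2 : x ≤ 2 ∨ y ≤ 2) :
    3 * t - 12 ≤ UU t x y ∧ UU t x y ≤ 3 * t + 4 := by
  unfold UU
  split_ifs with h
  · have h1 : (0:ℝ) ≤ (tab ⌊x⌋ ⌊y⌋ ⌊y - x⌋ : ℝ) := by exact_mod_cast tab_nonneg _ _ _
    have h2 : (tab ⌊x⌋ ⌊y⌋ ⌊y - x⌋ : ℝ) ≤ 12 := by exact_mod_cast tab_le _ _ _
    constructor <;> linarith [h.1, h.2]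
  · have h3 : min x y ≤ 2 := by
      rcases h2 with h2 | h2
      · exact (min_le_left _ _).trans h2
      · exact (min_le_right _ _).trans h2
    have h4 : 0 ≤ min x y := le_min hx hy
    constructor <;> linarith

theorem UU_upper {t x y m : ℝ} (ht : t ≤ m) (hx : -m ≤ x) (hy : -m ≤ y) (hm : 0 ≤ m) :
    UU t x y ≤ 5 * m + 4 := by
  unfold UU
  split_ifs with h
  · have h2 : (tab ⌊x⌋ ⌊y⌋ ⌊y - x⌋ : ℝ) ≤ 12 := by exact_mod_cast tab_le _ _ _
    linarith
  · have h4 : -m ≤ min x y := le_min hx hy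
    linarith

theorem U3_upper {W : Load} {m : ℝ} (h0 : ∀ i, 0 ≤ W i) (h : ∀ i, W i ≤ m) : U3 W ≤ 5 * m + 4 := by
  have hm : 0 ≤ m := (h0 0).trans (h 0)
  unfold U3
  split_ifs
  · exact UU_upper (h 0) (by linarith [h 2, h0 0]) (by linarith [h 1, h0 0]) hm
  · exact UU_upper (h 1) (by linarith [h 0, h0 1]) (by linarith [h 2, h0 1]) hm
  · exact UU_upper (h 2) (by linarith [h 1, h0 2]) (by linarith [h 0, h0 2]) hm

/-- upper bound of the near/far correction in terms of the cell, in units 1/6 -/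
def Psi (i j k : ℤ) : ℤ := if i < 6 ∧ j < 6 then 2 * tab i j k else 6 * (max i j + 1) - 3 * min i j

theorem UU_le_Psi {t x y : ℝ} : UU t x y ≤ 3 * t - x - y + (Psi ⌊x⌋ ⌊y⌋ ⌊y - x⌋ : ℝ) / 6 := by
  unfold UU Psi
  by_cases h : x < 6 ∧ y < 6
  · have h2 : ⌊x⌋ < 6 ∧ ⌊y⌋ < 6 := by
      constructor
      · rw [Int.floor_lt]; exact_mod_cast h.1
      · rw [Int.floor_lt]; exact_mod_cast h.2
    rw [if_pos h, if_pos h2]
    push_cast; linarith
  · have h2 : ¬ (⌊x⌋ < 6 ∧ ⌊y⌋ < 6) := by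
      rw [Int.floor_lt, Int.floor_lt]; exact_mod_cast h
    rw [if_neg h, if_neg h2]
    push_cast
    have a1 : x ≤ (⌊x⌋ : ℝ) + 1 := (Int.lt_floor_add_one x).le
    have a2 : y ≤ (⌊y⌋ : ℝ) + 1 := (Int.lt_floor_add_one y).le
    have b1 : (⌊x⌋ : ℝ) ≤ x := Int.floor_le x
    have b2 : (⌊y⌋ : ℝ) ≤ y := Int.floor_le y
    have c1 : max x y ≤ max (⌊x⌋ : ℝ) (⌊y⌋ : ℝ) + 1 := by
      apply max_le
      · linarith [le_max_left (⌊x⌋ : ℝ) (⌊y⌋ : ℝ)]
      · linarith [le_max_right (⌊x⌋ : ℝ) (⌊y⌋ : ℝ)]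
    have c2 : min (⌊x⌋ : ℝ) (⌊y⌋ : ℝ) ≤ min x y := min_le_min b1 b2
    have c3 : x + y = max x y + min x y := (max_add_min x y).symm
    linarith

/-- not an integer -/
def NI (x : ℝ) : Prop := ∀ n : ℤ, x ≠ n

theorem NI_neg_floor {x : ℝ} (h : NI x) : ⌊-x⌋ = -⌊x⌋ - 1 := by
  rw [Int.floor_eq_iff]
  have h1 : (⌊x⌋ : ℝ) < x := lt_of_le_of_ne (Int.floor_le x) (fun h' => h _ h'.symm)
  have h2 := Int.lt_floor_add_one x
  push_cast
  constructor <;> linarith

theorem NI_lt_iff {x : ℝ} (h : NI x) (n : ℤ) : (n : ℝ) < x ↔ n ≤ ⌊x⌋ := by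
  rw [Int.le_floor]
  exact ⟨le_of_lt, fun h' => lt_of_le_of_ne h' (fun h'' => h n h''.symm)⟩

noncomputable def A2 (q t x y : ℝ) : ℝ := if q < x then UU t (x - q) y else UU (t + (q - x)) (q - x + y) (q - x)

noncomputable def A1 (q t x y : ℝ) : ℝ := if q < y then UU t x (y - q) else UU (t + (q - y)) (q - y) (q - y + x)

def PN2 (q i j k : ℤ) : ℤ := if q ≤ i then Psi (i - q) j (k + q) else Psi (q + k) (q - 1 - i) (-1 - j)

def PN1 (q i j k : ℤ) : ℤ := if q ≤ j then Psi i (j - q) (k - q) else Psi (q - 1 - j) (q - 1 - k) i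

theorem A2_le (n : ℤ) {t x y : ℝ} (hx : NI x) (hy : NI y) :
    A2 n t x y ≤ 3 * t - x - y + n + (PN2 n ⌊x⌋ ⌊y⌋ ⌊y - x⌋ : ℝ) / 6 := by
  unfold A2 PN2
  by_cases h : (n : ℝ) < x
  · rw [if_pos h, if_pos ((NI_lt_iff hx n).1 h)]
    have := UU_le_Psi (t := t) (x := x - n) (y := y)
    rw [Int.floor_sub_intCast, show y - (x - n) = (y - x) + n by ring, Int.floor_add_intCast] at this
    linarith
  · rw [if_neg h, if_neg (fun h' => h ((NI_lt_iff hx n).2 h'))]
    have := UU_le_Psi (t := t + (n - x)) (x := n - x + y) (y := n - x)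
    rw [show (n : ℝ) - x - (n - x + y) = -y by ring, NI_neg_floor hy,
      show (n : ℝ) - x + y = (y - x) + n by ring, Int.floor_add_intCast,
      show (n : ℝ) - x = -x + n by ring, Int.floor_add_intCast, NI_neg_floor hx] at this
    rw [show n + ⌊y - x⌋ = ⌊y - x⌋ + n by ring, show n - 1 - ⌊x⌋ = -⌊x⌋ - 1 + n by ring,
      show -1 - ⌊y⌋ = -⌊y⌋ - 1 by ring]
    rw [show (n : ℝ) - x = -x + n by ring, show -x + (n:ℝ) + y = (y - x) + n by ring]
    linarith

theorem A1_le (n : ℤ) {t x y : ℝ} (hy : NI y) (hyx : NI (y - x)) :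
    A1 n t x y ≤ 3 * t - x - y + n + (PN1 n ⌊x⌋ ⌊y⌋ ⌊y - x⌋ : ℝ) / 6 := by
  unfold A1 PN1
  by_cases h : (n : ℝ) < y
  · rw [if_pos h, if_pos ((NI_lt_iff hy n).1 h)]
    have := UU_le_Psi (t := t) (x := x) (y := y - n)
    rw [Int.floor_sub_intCast, show y - n - x = (y - x) - n by ring, Int.floor_sub_intCast] at this
    linarith
  · rw [if_neg h, if_neg (fun h' => h ((NI_lt_iff hy n).2 h'))]
    have := UU_le_Psi (t := t + (n - y)) (x := n - y) (y := n - y + x)
    rw [show (n : ℝ) - y + x - (n - y) = x by ring,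
      show (n : ℝ) - y + x = -(y - x) + n by ring, Int.floor_add_intCast, NI_neg_floor hyx,
      show (n : ℝ) - y = -y + n by ring, Int.floor_add_intCast, NI_neg_floor hy] at this
    rw [show n - 1 - ⌊y - x⌋ = -⌊y - x⌋ - 1 + n by ring, show n - 1 - ⌊y⌋ = -⌊y⌋ - 1 + n by ring]
    rw [show (n : ℝ) - y = -y + n by ring, show -y + (n:ℝ) + x = -(y - x) + n by ring]
    linarith

theorem cell_ineq (i j k : ℤ) (hi : 0 ≤ i) (hi' : i < 6) (hj : 0 ≤ j) (hj' : j < 6) (hm : i ≤ 1 ∨ j ≤ 1)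
    (hk : k = j - i ∨ k = j - i - 1) :
    18 + PN2 1 i j k + PN1 2 i j k + (if 0 ≤ k then 6 + PN1 1 i j k else 12 + PN2 2 i j k) ≤
      3 * Psi i j k + 28 := by
  interval_cases i <;> interval_cases j <;> first | (exfalso; omega) | (rcases hk with hk | hk <;> subst hk <;> decide)

theorem near_drift {t x y : ℝ} (hx0 : 0 < x) (hy0 : 0 < y) (hx6 : x < 6) (hy6 : y < 6)
    (hm : x < 2 ∨ y < 2) (hx : NI x) (hy : NI y) (hyx : NI (y - x)) :
    A2 1 t x y + A1 2 t x y + (if x < y then A1 1 t x y else A2 2 t x y) ≤ 3 * UU t x y + 14 / 3 := by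
  have a1 := A2_le 1 (t := t) hx hy
  have a2 := A1_le 2 (t := t) (x := x) hy hyx
  have a3 := A1_le 1 (t := t) (x := x) hy hyx
  have a4 := A2_le 2 (t := t) hx hy
  push_cast at a1 a2 a3 a4
  have hU : UU t x y = 3 * t - x - y + (Psi ⌊x⌋ ⌊y⌋ ⌊y - x⌋ : ℝ) / 6 := by
    unfold UU Psi
    have h2 : ⌊x⌋ < 6 ∧ ⌊y⌋ < 6 := by
      constructor
      · rw [Int.floor_lt]; exact_mod_cast hx6
      · rw [Int.floor_lt]; exact_mod_cast hy6
    rw [if_pos ⟨hx6, hy6⟩, if_pos h2]
    push_cast; ring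
  have hi : 0 ≤ ⌊x⌋ := Int.floor_nonneg.2 hx0.le
  have hj : 0 ≤ ⌊y⌋ := Int.floor_nonneg.2 hy0.le
  have hi' : ⌊x⌋ < 6 := by rw [Int.floor_lt]; exact_mod_cast hx6
  have hj' : ⌊y⌋ < 6 := by rw [Int.floor_lt]; exact_mod_cast hy6
  have hm' : ⌊x⌋ ≤ 1 ∨ ⌊y⌋ ≤ 1 := by
    rcases hm with h | h
    · left
      have : ⌊x⌋ < 2 := by rw [Int.floor_lt]; exact_mod_cast h
      omega
    · right
      have : ⌊y⌋ < 2 := by rw [Int.floor_lt]; exact_mod_cast h
      omega
  have hk : ⌊y - x⌋ = ⌊y⌋ - ⌊x⌋ ∨ ⌊y - x⌋ = ⌊y⌋ - ⌊x⌋ - 1 := by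
    have u1 := Int.floor_le x
    have u2 := Int.lt_floor_add_one x
    have u3 := Int.floor_le y
    have u4 := Int.lt_floor_add_one y
    have u5 := Int.floor_le (y - x)
    have u6 := Int.lt_floor_add_one (y - x)
    have v1 : (⌊y - x⌋ : ℝ) < (⌊y⌋ - ⌊x⌋ + 1 : ℤ) := by push_cast; linarith
    have v2 : ((⌊y⌋ - ⌊x⌋ - 1 - 1 : ℤ) : ℝ) < ⌊y - x⌋ := by push_cast; linarith
    have w1 : ⌊y - x⌋ < ⌊y⌋ - ⌊x⌋ + 1 := by exact_mod_cast v1
    have w2 : ⌊y⌋ - ⌊x⌋ - 1 - 1 < ⌊y - x⌋ := by exact_mod_cast v2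
    omega
  have hc := cell_ineq ⌊x⌋ ⌊y⌋ ⌊y - x⌋ hi hi' hj hj' hm' hk
  rw [hU]
  have hkk : (0 ≤ ⌊y - x⌋) ↔ x < y := by
    rw [Int.floor_nonneg]
    constructor
    · intro h
      rcases eq_or_lt_of_le h with h' | h'
      · exact absurd h'.symm (by have := hyx 0; push_cast at this; exact this)
      · linarith
    · intro h; linarith
  by_cases hxy : x < y
  · rw [if_pos hxy]
    rw [if_pos (hkk.2 hxy)] at hc
    have hc' : (18 + PN2 1 ⌊x⌋ ⌊y⌋ ⌊y - x⌋ + PN1 2 ⌊x⌋ ⌊y⌋ ⌊y - x⌋ + (6 + PN1 1 ⌊x⌋ ⌊y⌋ ⌊y - x⌋) : ℝ) ≤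
        3 * Psi ⌊x⌋ ⌊y⌋ ⌊y - x⌋ + 28 := by exact_mod_cast hc
    linarith
  · rw [if_neg hxy]
    rw [if_neg (fun h => hxy (hkk.1 h))] at hc
    have hc' : (18 + PN2 1 ⌊x⌋ ⌊y⌋ ⌊y - x⌋ + PN1 2 ⌊x⌋ ⌊y⌋ ⌊y - x⌋ + (12 + PN2 2 ⌊x⌋ ⌊y⌋ ⌊y - x⌋) : ℝ) ≤
        3 * Psi ⌊x⌋ ⌊y⌋ ⌊y - x⌋ + 28 := by exact_mod_cast hc
    linarith

theorem tab_far (i j k : ℤ) (hi : 4 ≤ i) (hi' : i < 6) (hj : 0 ≤ j) (hj' : j < 2) :
    2 * tab i j k ≤ 6 * i - 3 * (j + 1) ∧ 2 * tab j i k ≤ 6 * i - 3 * (j + 1) := by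
  unfold tab
  constructor
  · split
    · interval_cases i <;> interval_cases j <;> decide
    · interval_cases i <;> interval_cases j <;> decide
  · split
    · interval_cases i <;> interval_cases j <;> decide
    · interval_cases i <;> interval_cases j <;> decide

theorem UU_farx {t x y : ℝ} (hx : 4 ≤ x) (hy0 : 0 ≤ y) (hy : y < 2) : UU t x y ≤ 3 * t - 3 / 2 * y := by
  unfold UU
  split_ifs with h
  · have hi : 4 ≤ ⌊x⌋ := by rw [Int.le_floor]; exact_mod_cast hx
    have hi' : ⌊x⌋ < 6 := by rw [Int.floor_lt]; exact_mod_cast h.1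
    have hj : 0 ≤ ⌊y⌋ := Int.floor_nonneg.2 hy0
    have hj' : ⌊y⌋ < 2 := by rw [Int.floor_lt]; exact_mod_cast hy
    have h1 := (tab_far ⌊x⌋ ⌊y⌋ ⌊y - x⌋ hi hi' hj hj').1
    have h2 : (2 * tab ⌊x⌋ ⌊y⌋ ⌊y - x⌋ : ℝ) ≤ 6 * ⌊x⌋ - 3 * (⌊y⌋ + 1) := by exact_mod_cast h1
    have h3 := Int.floor_le x
    have h4 := Int.lt_floor_add_one y
    linarith
  · rw [min_eq_right (by linarith)]

theorem UU_fary {t x y : ℝ} (hy : 4 ≤ y) (hx0 : 0 ≤ x) (hx : x < 2) : UU t x y ≤ 3 * t - 3 / 2 * x := by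
  unfold UU
  split_ifs with h
  · have hi : 4 ≤ ⌊y⌋ := by rw [Int.le_floor]; exact_mod_cast hy
    have hi' : ⌊y⌋ < 6 := by rw [Int.floor_lt]; exact_mod_cast h.2
    have hj : 0 ≤ ⌊x⌋ := Int.floor_nonneg.2 hx0
    have hj' : ⌊x⌋ < 2 := by rw [Int.floor_lt]; exact_mod_cast hx
    have h1 := (tab_far ⌊y⌋ ⌊x⌋ ⌊y - x⌋ hi hi' hj hj').2
    have h2 : (2 * tab ⌊x⌋ ⌊y⌋ ⌊y - x⌋ : ℝ) ≤ 6 * ⌊y⌋ - 3 * (⌊x⌋ + 1) := by exact_mod_cast h1
    have h3 := Int.floor_le y
    have h4 := Int.lt_floor_add_one x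
    linarith
  · rw [min_eq_left (by linarith)]

theorem UU_farx_eq {t x y : ℝ} (hx : 6 ≤ x) (hy : y ≤ x) : UU t x y = 3 * t - 3 / 2 * y := by
  unfold UU
  rw [if_neg (by intro h; linarith [h.1]), min_eq_right hy]

theorem UU_fary_eq {t x y : ℝ} (hy : 6 ≤ y) (hx : x ≤ y) : UU t x y = 3 * t - 3 / 2 * x := by
  unfold UU
  rw [if_neg (by intro h; linarith [h.2]), min_eq_left hx]

theorem far_driftx {t x y : ℝ} (hx : 6 ≤ x) (hy0 : 0 < y) (hy : y < 2) :
    A2 1 t x y + A1 2 t x y + (if x < y then A1 1 t x y else A2 2 t x y) ≤ 3 * UU t x y + 14 / 3 := by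
  rw [if_neg (by linarith), UU_farx_eq hx (by linarith)]
  unfold A2 A1
  rw [if_pos (by linarith), if_neg (by linarith), if_pos (by linarith)]
  have h1 := UU_farx (t := t) (x := x - 1) (y := y) (by linarith) hy0.le hy
  have h2 := UU_farx (t := t) (x := x - 2) (y := y) (by linarith) hy0.le hy
  have h3 := UU_fary_eq (t := t + (2 - y)) (x := 2 - y) (y := 2 - y + x) (by linarith) (by linarith)
  rw [h3]
  linarith

theorem far_drifty {t x y : ℝ} (hy : 6 ≤ y) (hx0 : 0 < x) (hx : x < 2) :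
    A2 1 t x y + A1 2 t x y + (if x < y then A1 1 t x y else A2 2 t x y) ≤ 3 * UU t x y + 14 / 3 := by
  rw [if_pos (by linarith), UU_fary_eq hy (by linarith)]
  unfold A2 A1
  rw [if_pos (show 2 < y by linarith), if_pos (show 1 < y by linarith)]
  have h1 := UU_fary (t := t) (x := x) (y := y - 2) (by linarith) hx0.le hx
  have h2 := UU_fary (t := t) (x := x) (y := y - 1) (by linarith) hx0.le hx
  have h3 : (if 1 < x then UU t (x - 1) y else UU (t + (1 - x)) (1 - x + y) (1 - x)) ≤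
      3 * t - 3 / 2 * x + 3 / 2 := by
    split_ifs with h
    · rw [UU_fary_eq hy (by linarith)]; linarith
    · rw [UU_farx_eq (by linarith) (by linarith)]; linarith
  linarith

/-- structure of the gaps of a good state with a large maximum -/
def Str (x y : ℝ) : Prop :=
  0 < x ∧ 0 < y ∧ ((x < 2 ∧ NI x ∧ (8 ≤ y ∨ (NI y ∧ NI (y - x)))) ∨ (y < 2 ∧ NI y ∧ (8 ≤ x ∨ (NI x ∧ NI (y - x)))))

theorem Str_drift {t x y : ℝ} (h : Str x y) :
    A2 1 t x y + A1 2 t x y + (if x < y then A1 1 t x y else A2 2 t x y) ≤ 3 * UU t x y + 14 / 3 := by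
  obtain ⟨hx, hy, h⟩ := h
  rcases h with ⟨h1, h2, h3⟩ | ⟨h1, h2, h3⟩
  · by_cases hy6 : 6 ≤ y
    · exact far_drifty hy6 hx h1
    · push Not at hy6
      rcases h3 with h3 | ⟨h3, h4⟩
      · linarith
      · exact near_drift hx hy (by linarith) hy6 (Or.inl h1) h2 h3 h4
  · by_cases hx6 : 6 ≤ x
    · exact far_driftx hx6 hy h1
    · push Not at hx6
      rcases h3 with h3 | ⟨h3, h4⟩
      · linarith
      · exact near_drift hx hy hx6 (by linarith) (Or.inr h1) h3 h2 h4

theorem Str_ne {x y : ℝ} (h : Str x y) : x ≠ 1 ∧ x ≠ 2 ∧ y ≠ 1 ∧ y ≠ 2 ∧ x ≠ y := by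
  obtain ⟨hx, hy, h⟩ := h
  rcases h with ⟨h1, h2, h3⟩ | ⟨h1, h2, h3⟩
  · have e1 := h2 1
    have e2 := h2 2
    push_cast at e1 e2
    rcases h3 with h3 | ⟨h3, h4⟩
    · refine ⟨e1, e2, ?_, ?_, ?_⟩ <;> intro h' <;> linarith
    · have f1 := h3 1
      have f2 := h3 2
      have f3 := h4 0
      push_cast at f1 f2 f3
      exact ⟨e1, e2, f1, f2, fun h' => f3 (by linarith)⟩
  · have e1 := h2 1
    have e2 := h2 2
    push_cast at e1 e2
    rcases h3 with h3 | ⟨h3, h4⟩
    · refine ⟨?_, ?_, e1, e2, ?_⟩ <;> intro h' <;> linarith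
    · have f1 := h3 1
      have f2 := h3 2
      have f3 := h4 0
      push_cast at f1 f2 f3
      exact ⟨f1, f2, e1, e2, fun h' => f3 (by linarith)⟩

theorem U3_A2 {W : Load} {M : Fin 3} {t x y q : ℝ} (h : TF W M t x y) (_hx : 0 < x) (hy : 0 < y)
    (hq : x ≠ q) : U3 (Function.update W (M + 2) (W (M + 2) + q)) = A2 q t x y := by
  unfold A2
  by_cases hqx : q < x
  · rw [if_pos hqx]
    exact U3_TF (TF_up2 h) (by linarith) hy
  · rw [if_neg hqx]
    have : x < q := lt_of_le_of_ne (not_lt.1 hqx) hq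
    exact U3_TF (TF_up2' h) (by linarith) (by linarith)

theorem U3_A1 {W : Load} {M : Fin 3} {t x y q : ℝ} (h : TF W M t x y) (hx : 0 < x) (_hy : 0 < y)
    (hq : y ≠ q) : U3 (Function.update W (M + 1) (W (M + 1) + q)) = A1 q t x y := by
  unfold A1
  by_cases hqx : q < y
  · rw [if_pos hqx]
    exact U3_TF (TF_up1 h) hx (by linarith)
  · rw [if_neg hqx]
    have : y < q := lt_of_le_of_ne (not_lt.1 hqx) hq
    exact U3_TF (TF_up1' h) (by linarith) (by linarith)

/-- drift of the Lyapunov function -/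
theorem U3_drift {W : Load} {M : Fin 3} {t x y : ℝ} (h : TF W M t x y) (hs : Str x y) :
    ∑ c, U3 (J c W) ≤ 3 * U3 W + 14 / 3 := by
  obtain ⟨hx, hy, hx2, hy2, hxy⟩ := Str_ne hs
  have h1 : U3 (J (M + 2) W) = A2 1 t x y := by
    rw [J_c2 h, if_pos hs.1]; exact U3_A2 h hs.1 hs.2.1 hx
  have h2 : U3 (J M W) = A1 2 t x y := by
    rw [J_c0 h hs.2.1.le]; exact U3_A1 h hs.1 hs.2.1 hy2
  have h3 : U3 (J (M + 1) W) = if x < y then A1 1 t x y else A2 2 t x y := by
    rw [J_c1 h]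
    by_cases hxy' : x < y
    · rw [if_pos hxy', if_pos hxy']; exact U3_A1 h hs.1 hs.2.1 hx2
    · rw [if_neg hxy', if_neg hxy']; exact U3_A2 h hs.1 hs.2.1 hy
  rw [sum_J M, h1, h2, h3, U3_TF h hs.1 hs.2.1]
  exact Str_drift hs

theorem A2_bd {q t x y : ℝ} (hq : 0 ≤ q) (hq2 : q ≤ 2) (_hx : 0 < x) (hy : 0 < y) (h2 : x < 2 ∨ y < 2) :
    3 * t - 12 ≤ A2 q t x y ∧ A2 q t x y ≤ 3 * t + 10 := by
  unfold A2
  split_ifs with h
  · have := UU_bounds (t := t) (x := x - q) (y := y) (by linarith) hy.le (by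
      rcases h2 with h2 | h2
      · left; linarith
      · right; linarith)
    constructor <;> linarith [this.1, this.2]
  · push Not at h
    have := UU_bounds (t := t + (q - x)) (x := q - x + y) (y := q - x) (by linarith) (by linarith)
      (Or.inr (by linarith))
    constructor <;> linarith [this.1, this.2]

theorem A1_bd {q t x y : ℝ} (hq : 0 ≤ q) (hq2 : q ≤ 2) (hx : 0 < x) (_hy : 0 < y) (h2 : x < 2 ∨ y < 2) :
    3 * t - 12 ≤ A1 q t x y ∧ A1 q t x y ≤ 3 * t + 10 := by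
  unfold A1
  split_ifs with h
  · have := UU_bounds (t := t) (x := x) (y := y - q) hx.le (by linarith) (by
      rcases h2 with h2 | h2
      · left; linarith
      · right; linarith)
    constructor <;> linarith [this.1, this.2]
  · push Not at h
    have := UU_bounds (t := t + (q - y)) (x := q - y) (y := q - y + x) (by linarith) (by linarith)
      (Or.inl (by linarith))
    constructor <;> linarith [this.1, this.2]

theorem U3_inc {W : Load} {M : Fin 3} {t x y : ℝ} (h : TF W M t x y) (hs : Str x y) (c : Fin 3) :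
    |U3 (J c W) - U3 W| ≤ 22 := by
  obtain ⟨hx, hy, hx2, hy2, hxy⟩ := Str_ne hs
  have h22 : x < 2 ∨ y < 2 := by
    rcases hs.2.2 with h | h
    · exact Or.inl h.1
    · exact Or.inr h.1
  have h1 : U3 (J (M + 2) W) = A2 1 t x y := by
    rw [J_c2 h, if_pos hs.1]; exact U3_A2 h hs.1 hs.2.1 hx
  have h2 : U3 (J M W) = A1 2 t x y := by
    rw [J_c0 h hs.2.1.le]; exact U3_A1 h hs.1 hs.2.1 hy2
  have h3 : U3 (J (M + 1) W) = if x < y then A1 1 t x y else A2 2 t x y := by
    rw [J_c1 h]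
    by_cases hxy' : x < y
    · rw [if_pos hxy', if_pos hxy']; exact U3_A1 h hs.1 hs.2.1 hx2
    · rw [if_neg hxy', if_neg hxy']; exact U3_A2 h hs.1 hs.2.1 hy
  have h0 := UU_bounds (t := t) hs.1.le hs.2.1.le (by
    rcases h22 with h | h
    · exact Or.inl h.le
    · exact Or.inr h.le)
  have b1 := A2_bd (t := t) (q := 1) (by norm_num) (by norm_num) hs.1 hs.2.1 h22
  have b2 := A1_bd (t := t) (q := 2) (by norm_num) (by norm_num) hs.1 hs.2.1 h22
  have b3 := A1_bd (t := t) (q := 1) (by norm_num) (by norm_num) hs.1 hs.2.1 h22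
  have b4 := A2_bd (t := t) (q := 2) (by norm_num) (by norm_num) hs.1 hs.2.1 h22
  have hc : c = M + 2 ∨ c = M ∨ c = M + 1 := by
    fin_cases M <;> fin_cases c <;> simp
  rw [U3_TF h hs.1 hs.2.1, abs_le]
  rcases hc with hc | hc | hc
  · subst hc; rw [h1]; constructor <;> linarith [b1.1, b1.2, h0.1, h0.2]
  · subst hc; rw [h2]; constructor <;> linarith [b2.1, b2.2, h0.1, h0.2]
  · subst hc; rw [h3]
    split_ifs
    · constructor <;> linarith [b3.1, b3.2, h0.1, h0.2]
    · constructor <;> linarith [b4.1, b4.2, h0.1, h0.2]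

/-! ### good states -/

def Good (W : Load) : Prop :=
  (∀ i, 0 ≤ W i) ∧ (∀ i j, i ≠ j → 0 < W i → 0 < W j → NI (W i - W j)) ∧ (∀ i, ∃ j, j ≠ i ∧ W i - 2 ≤ W j)

theorem NI_neg {x : ℝ} (h : NI x) : NI (-x) := by
  intro n hn
  apply h (-n)
  push_cast; linarith

theorem Good_top {W : Load} (hW : Good W) (hb : ∃ i, 8 ≤ W i) :
    ∃ M t x y, TF W M t x y ∧ Str x y ∧ 8 ≤ t ∧ ∀ i, W i ≤ t := by
  obtain ⟨h0, hg, hst⟩ := hW
  obtain ⟨M, hM⟩ : ∃ M, ∀ i, W i ≤ W M := by
    obtain ⟨M, _, hM⟩ := Finset.exists_max_image Finset.univ W ⟨0, Finset.mem_univ 0⟩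
    exact ⟨M, fun i => hM i (Finset.mem_univ i)⟩
  obtain ⟨i0, hi0⟩ := hb
  have ht : 8 ≤ W M := hi0.trans (hM i0)
  have hMpos : 0 < W M := by linarith
  have n1 : M + 1 ≠ M := by fin_cases M <;> decide
  have n2 : M + 2 ≠ M := by fin_cases M <;> decide
  have n3 : M + 1 ≠ M + 2 := by fin_cases M <;> decide
  refine ⟨M, W M, W M - W (M + 2), W M - W (M + 1), ⟨rfl, by ring, by ring⟩, ?_, ht, hM⟩
  -- positivity of gaps
  have gap_pos : ∀ j, j ≠ M → 0 < W M - W j := by
    intro j hj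
    rcases (h0 j).eq_or_lt with h | h
    · rw [← h]; linarith
    · have := hg M j hj.symm hMpos h 0
      push_cast at this
      have h2 := hM j
      rcases h2.eq_or_lt with h3 | h3
      · exact absurd (by linarith) this
      · linarith
  have gNI : ∀ j, j ≠ M → 8 ≤ W M - W j ∨ NI (W M - W j) := by
    intro j hj
    rcases (h0 j).eq_or_lt with h | h
    · left; rw [← h]; linarith
    · right; exact hg M j hj.symm hMpos h
  obtain ⟨j, hj, hj2⟩ := hst M
  have hj' : j = M + 1 ∨ j = M + 2 := by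
    fin_cases M <;> fin_cases j <;> simp_all
  refine ⟨gap_pos _ n2, gap_pos _ n1, ?_⟩
  rcases hj' with hj' | hj'
  · right
    rw [hj'] at hj2
    have hp : 0 < W (M + 1) := by linarith
    have hni := hg M (M + 1) n1.symm hMpos hp
    refine ⟨?_, hni, ?_⟩
    · have := hni 2
      push_cast at this
      exact lt_of_le_of_ne (by linarith) this
    · rcases (h0 (M + 2)).eq_or_lt with h | h
      · left; rw [← h]; linarith
      · right
        refine ⟨hg M (M + 2) n2.symm hMpos h, ?_⟩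
        have := hg (M + 2) (M + 1) n3.symm h hp
        rwa [show W M - W (M + 1) - (W M - W (M + 2)) = W (M + 2) - W (M + 1) by ring]
  · left
    rw [hj'] at hj2
    have hp : 0 < W (M + 2) := by linarith
    have hni := hg M (M + 2) n2.symm hMpos hp
    refine ⟨?_, hni, ?_⟩
    · have := hni 2
      push_cast at this
      exact lt_of_le_of_ne (by linarith) this
    · rcases (h0 (M + 1)).eq_or_lt with h | h
      · left; rw [← h]; linarith
      · right
        refine ⟨hg M (M + 1) n1.symm hMpos h, ?_⟩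
        have := hg (M + 2) (M + 1) n3.symm hp h
        rwa [show W M - W (M + 1) - (W M - W (M + 2)) = W (M + 2) - W (M + 1) by ring]

theorem Good_drain {W : Load} (hW : Good W) {s : ℝ} (hs : 0 ≤ s) : Good (drain W s) := by
  obtain ⟨h0, hg, hst⟩ := hW
  refine ⟨fun i => le_max_right _ _, ?_, ?_⟩
  · intro i j hij hi hj
    have e : ∀ i, 0 < drain W s i → drain W s i = W i - s ∧ 0 < W i := by
      intro i hi
      unfold drain at hi ⊢
      try dsimp only at hi ⊢
      rcases lt_max_iff.1 hi with h | h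
      · exact ⟨max_eq_left h.le, by linarith⟩
      · exact absurd h (lt_irrefl _)
    rw [(e i hi).1, (e j hj).1, show W i - s - (W j - s) = W i - W j by ring]
    exact hg i j hij (e i hi).2 (e j hj).2
  · intro i
    obtain ⟨j, hj, hj2⟩ := hst i
    refine ⟨j, hj, ?_⟩
    unfold drain
    try dsimp only
    rcases le_total (W i - s) 0 with h | h
    · rw [max_eq_right h]
      linarith [le_max_right (W j - s) 0]
    · rw [max_eq_left h]
      linarith [le_max_left (W j - s) 0]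

theorem UU_shift (t s x y : ℝ) : UU (t - s) x y = UU t x y - 3 * s := by
  unfold UU; split_ifs <;> ring

theorem U3_drain {W : Load} (hW : Good W) {s : ℝ} (hs : 0 ≤ s) (h : ∃ i, 8 ≤ W i - s) :
    U3 (drain W s) = U3 W - 3 * s := by
  obtain ⟨i, hi⟩ := h
  obtain ⟨M, t, x, y, hTF, hStr, ht, hmax⟩ := Good_top hW ⟨i, by linarith⟩
  have hts : 8 ≤ t - s := by linarith [hmax i]
  obtain ⟨e1, e2, e3⟩ := hTF
  have hTF' : TF (drain W s) M (t - s) ((t - s) - max (t - x - s) 0) ((t - s) - max (t - y - s) 0) := by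
    unfold TF drain
    try dsimp only
    rw [e1, e2, e3]
    refine ⟨max_eq_left (by linarith), by ring, by ring⟩
  have hx := hStr.1
  have hy := hStr.2.1
  have hx' : 0 < (t - s) - max (t - x - s) 0 := by
    rcases le_total (t - x - s) 0 with h | h
    · rw [max_eq_right h]; linarith
    · rw [max_eq_left h]; linarith
  have hy' : 0 < (t - s) - max (t - y - s) 0 := by
    rcases le_total (t - y - s) 0 with h | h
    · rw [max_eq_right h]; linarith
    · rw [max_eq_left h]; linarith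
  rw [U3_TF ⟨e1, e2, e3⟩ hx hy, U3_TF hTF' hx' hy', ← UU_shift]
  rcases hStr.2.2 with ⟨h1, _, _⟩ | ⟨h1, _, _⟩
  · rw [max_eq_left (show 0 ≤ t - x - s by linarith)]
    rcases le_total (t - y - s) 0 with h | h
    · rw [max_eq_right h]
      rw [UU_fary_eq (by linarith) (by linarith), UU_fary_eq (by linarith) (by linarith)]
      ring
    · rw [max_eq_left h]; congr 1 <;> ring
  · rw [max_eq_left (show 0 ≤ t - y - s by linarith)]
    rcases le_total (t - x - s) 0 with h | h
    · rw [max_eq_right h]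
      rw [UU_farx_eq (by linarith) (by linarith), UU_farx_eq (by linarith) (by linarith)]
      ring
    · rw [max_eq_left h]; congr 1 <;> ring

theorem join_apply_le {W : Load} {m : ℝ} (h : ∀ i, W i ≤ m) (c i : Fin 3) : J c W i ≤ m + 2 := by
  unfold J join
  dsimp only
  split_ifs
  · by_cases hi : i = c
    · subst hi; rw [Function.update_self]; linarith [h i]
    · rw [Function.update_of_ne hi]; linarith [h i]
  · by_cases hi : i = c + 1
    · subst hi; rw [Function.update_self]; linarith [h (c + 1)]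
    · rw [Function.update_of_ne hi]; linarith [h i]

theorem join_nonneg {W : Load} (h : ∀ i, 0 ≤ W i) (c i : Fin 3) : 0 ≤ J c W i := by
  unfold J join
  dsimp only
  split_ifs
  · by_cases hi : i = c
    · subst hi; rw [Function.update_self]; linarith [h i]
    · rw [Function.update_of_ne hi]; linarith [h i]
  · by_cases hi : i = c + 1
    · subst hi; rw [Function.update_self]; linarith [h (c + 1)]
    · rw [Function.update_of_ne hi]; linarith [h i]

/-- the exponent -/
noncomputable def th : ℝ := 1 / 40000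

noncomputable def VV (W : Load) : ℝ := Real.exp (th * U3 W)

noncomputable def K1 : ℝ := Real.exp (th * 54)

theorem VV_pos (W : Load) : 0 < VV W := Real.exp_pos _

theorem exp_quad {u : ℝ} (hu : |u| ≤ 1) : Real.exp u ≤ 1 + u + u ^ 2 := by
  have := Real.abs_exp_sub_one_sub_id_le hu
  have := (abs_le.1 this).2
  linarith

theorem VV_drain {W : Load} (hW : Good W) {s : ℝ} (hs : 0 ≤ s) :
    VV (drain W s) ≤ Real.exp (-(3 * th * s)) * VV W + K1 := by
  by_cases h : ∃ i, 8 ≤ W i - s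
  · unfold VV
    rw [U3_drain hW hs h, ← Real.exp_add]
    have : th * (U3 W - 3 * s) = -(3 * th * s) + th * U3 W := by ring
    rw [this]
    have := Real.exp_pos (th * 54)
    unfold K1
    linarith
  · push Not at h
    have h1 : ∀ i, drain W s i ≤ 8 := by
      intro i; unfold drain; try dsimp only
      exact max_le (h i).le (by norm_num)
    have h2 := U3_upper (W := drain W s) (fun i => le_max_right _ _) h1
    have h3 : VV (drain W s) ≤ K1 := by
      unfold VV K1
      apply Real.exp_le_exp.2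
      apply mul_le_mul_of_nonneg_left _ (by unfold th; norm_num)
      linarith
    have := mul_pos (Real.exp_pos (-(3 * th * s))) (VV_pos W)
    linarith

theorem VV_join {W : Load} (hW : Good W) {s : ℝ} (hs : 0 ≤ s) :
    (∑ c, VV (J c (drain W s))) / 3 ≤
      (1 + (14 / 9 * th + 484 * th ^ 2)) * (Real.exp (-(3 * th * s)) * VV W) + K1 := by
  by_cases h : ∃ i, 8 ≤ W i - s
  · have hG := Good_drain hW hs
    obtain ⟨i, hi⟩ := h
    obtain ⟨M, t, x, y, hTF, hStr, ht, hmax⟩ := Good_top hG ⟨i, by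
      unfold drain; exact le_trans hi (le_max_left _ _)⟩
    have hd := U3_drift hTF hStr
    have hU : VV (drain W s) = Real.exp (-(3 * th * s)) * VV W := by
      unfold VV
      rw [U3_drain hW hs ⟨i, hi⟩, ← Real.exp_add]
      congr 1; ring
    rw [← hU]
    have hth : (0:ℝ) < th := by unfold th; norm_num
    have hc : ∀ c, VV (J c (drain W s)) ≤ VV (drain W s) *
        (1 + th * (U3 (J c (drain W s)) - U3 (drain W s)) + th ^ 2 * 484) := by
      intro c
      have hinc := U3_inc hTF hStr c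
      set D := U3 (J c (drain W s)) - U3 (drain W s) with hD
      have e : VV (J c (drain W s)) = VV (drain W s) * Real.exp (th * D) := by
        unfold VV
        rw [← Real.exp_add]; congr 1; rw [hD]; ring
      rw [e]
      apply mul_le_mul_of_nonneg_left _ (VV_pos _).le
      have hu : |th * D| ≤ 1 := by
        rw [abs_mul, abs_of_pos hth]
        calc th * |D| ≤ th * 22 := by gcongr
          _ ≤ 1 := by unfold th; norm_num
      have h1 := exp_quad hu
      have h2 : (th * D) ^ 2 ≤ th ^ 2 * 484 := by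
        rw [mul_pow]
        apply mul_le_mul_of_nonneg_left _ (by positivity)
        rw [← sq_abs]
        nlinarith [abs_nonneg D]
      linarith
    have hsum : ∑ c, VV (J c (drain W s)) ≤ VV (drain W s) * (3 + th * (14 / 3) + 3 * (th ^ 2 * 484)) := by
      calc ∑ c, VV (J c (drain W s)) ≤ ∑ c, VV (drain W s) *
            (1 + th * (U3 (J c (drain W s)) - U3 (drain W s)) + th ^ 2 * 484) :=
            Finset.sum_le_sum (fun c _ => hc c)
        _ = VV (drain W s) * (3 + th * ((∑ c, U3 (J c (drain W s))) - 3 * U3 (drain W s)) + 3 * (th ^ 2 * 484)) := by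
            simp only [Fin.sum_univ_three]; ring
        _ ≤ _ := by
            apply mul_le_mul_of_nonneg_left _ (VV_pos _).le
            have : th * ((∑ c, U3 (J c (drain W s))) - 3 * U3 (drain W s)) ≤ th * (14 / 3) := by
              apply mul_le_mul_of_nonneg_left _ hth.le
              linarith
            linarith
    have hK : 0 < K1 := Real.exp_pos _
    nlinarith [hsum]
  · push Not at h
    have h1 : ∀ i, drain W s i ≤ 8 := by
      intro i; unfold drain; try dsimp only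
      exact max_le (h i).le (by norm_num)
    have hc : ∀ c, VV (J c (drain W s)) ≤ K1 := by
      intro c
      have h2 := U3_upper (W := J c (drain W s)) (fun i => join_nonneg (fun i => le_max_right _ _) c i)
        (fun i => join_apply_le h1 c i)
      unfold VV K1
      apply Real.exp_le_exp.2
      apply mul_le_mul_of_nonneg_left _ (by unfold th; norm_num)
      linarith
    have hsum : ∑ c, VV (J c (drain W s)) ≤ 3 * K1 := by
      calc _ ≤ ∑ c : Fin 3, K1 := Finset.sum_le_sum (fun c _ => hc c)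
        _ = 3 * K1 := by simp
    have : 0 ≤ (1 + (14 / 9 * th + 484 * th ^ 2)) * (Real.exp (-(3 * th * s)) * VV W) := by
      have := VV_pos W
      unfold th; positivity
    linarith

theorem coord_le {W : Load} (hW : Good W) (i : Fin 3) : W i ≤ 8 ∨ 3 * W i ≤ U3 W + 12 := by
  by_cases h : W i ≤ 8
  · exact Or.inl h
  · right
    push Not at h
    obtain ⟨M, t, x, y, hTF, hStr, ht, hmax⟩ := Good_top hW ⟨i, h.le⟩
    have h22 : x ≤ 2 ∨ y ≤ 2 := by
      rcases hStr.2.2 with h | h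
      · exact Or.inl h.1.le
      · exact Or.inr h.1.le
    have := UU_bounds (t := t) hStr.1.le hStr.2.1.le h22
    rw [U3_TF hTF hStr.1 hStr.2.1]
    linarith [this.1, hmax i]

theorem Good_zero : Good 0 := by
  refine ⟨fun i => le_rfl, ?_, ?_⟩
  · intro i j _ hi; exact absurd hi (lt_irrefl _)
  · intro i
    refine ⟨i + 1, by fin_cases i <;> decide, by simp⟩

theorem Good_join {W : Load} (hW : Good W) (hni : ∀ i, 0 < W i → NI (W i)) (c : Fin 3) : Good (J c W) := by
  obtain ⟨h0, hg, hst⟩ := hW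
  -- general statement for a join of size q at a server p whose partner o is at least as loaded
  have key : ∀ (p o : Fin 3) (q : ℤ), p ≠ o → 1 ≤ q → q ≤ 2 → W p ≤ W o →
      Good (Function.update W p (W p + q)) := by
    intro p o q hpo hq1 hq2 hle
    have hq1' : (1:ℝ) ≤ q := by exact_mod_cast hq1
    have hq2' : (q:ℝ) ≤ 2 := by exact_mod_cast hq2
    have hpair : ∀ j, j ≠ p → 0 < W j → NI (W p + q - W j) := by
      intro j hj hjpos
      rcases (h0 p).eq_or_lt with h | h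
      · intro n hn
        apply hni j hjpos (q - n)
        rw [← h] at hn
        push_cast; linarith
      · intro n hn
        apply hg p j hj.symm h hjpos (n - q)
        push_cast; linarith
    refine ⟨?_, ?_, ?_⟩
    · intro i
      by_cases hi : i = p
      · subst hi; rw [Function.update_self]; linarith [h0 i]
      · rw [Function.update_of_ne hi]; exact h0 i
    · intro i j hij hi hj
      by_cases hip : i = p
      · subst hip
        rw [Function.update_self] at hi ⊢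
        rw [Function.update_of_ne hij.symm] at hj ⊢
        exact hpair j hij.symm hj
      · rw [Function.update_of_ne hip] at hi ⊢
        by_cases hjp : j = p
        · subst hjp
          rw [Function.update_self]
          have := NI_neg (hpair i hip hi)
          rwa [show -(W j + q - W i) = W i - (W j + q) by ring] at this
        · rw [Function.update_of_ne hjp] at hj ⊢
          exact hg i j hij hi hj
    · intro i
      by_cases hip : i = p
      · refine ⟨o, by rw [hip]; exact hpo.symm, ?_⟩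
        rw [hip, Function.update_self, Function.update_of_ne hpo.symm]
        linarith
      · obtain ⟨j, hj, hj2⟩ := hst i
        refine ⟨j, hj, ?_⟩
        rw [Function.update_of_ne hip]
        by_cases hjp : j = p
        · subst hjp; rw [Function.update_self]; linarith
        · rw [Function.update_of_ne hjp]; exact hj2
  unfold J join
  dsimp only
  have hcc : c ≠ c + 1 := by fin_cases c <;> decide
  split_ifs with h
  · have := key c (c + 1) 1 hcc le_rfl (by norm_num) h.le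
    push_cast at this; exact this
  · have := key (c + 1) c 2 hcc.symm (by norm_num) le_rfl (not_lt.1 h)
    push_cast at this; exact this

end Pool.Agent.Helper52.Tri
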